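import Mathlib

/-!
# Cancellative semigroups with context-free word problem: definitions

Common definitions for the proof that a cancellative semigroup with context-free word problem has
deterministic context-free word problem (MP_dd8e80_al).
-/

set_option autoImplicit false

namespace Pool.Agent.W399.WP

/-! ### The word problem and deterministic pushdown automata -/

/-- The value in `S` of the nonempty word `a :: u`. -/
def ev {S A : Type*} [Mul S] (φ : A → S) (a : A) (u : List A) : S :=
  u.foldl (fun s x => s * φ x) (φ a)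

/-- The word problem of the semigroup `S` with respect to the map `φ` from the finite set `A` to
`S`: all words `u # v^rev` with nonempty words `u`, `v` over `A` having the same value in `S`. The
letter `a` of `A` is written `some a` and the letter `#` is written `none`. -/
def WordProblem {S A : Type*} [Mul S] (φ : A → S) : Language (Option A) :=
  {w | ∃ (a b : A) (u v : List A), ev φ a u = ev φ b v ∧
    w = (a :: u).map some ++ none :: ((b :: v).reverse).map some}

/-- A deterministic pushdown automaton with input letters `T`. In the state `q` with top stack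
symbol `Z` it may either have a move without input (`eps q Z`) or moves reading the next input
letter (`rd q Z t`), not both. A move replaces the top stack symbol by a word (first letter on
top) and changes the state. -/
structure DPDA (T : Type*) where
  /-- states -/
  Q : Type
  /-- stack symbols -/
  Γ : Type
  finQ : Finite Q
  finΓ : Finite Γ
  /-- the initial state -/
  start : Q
  /-- the initial stack symbol -/
  bot : Γ
  /-- the accepting states -/
  acc : Set Q
  /-- moves without input -/
  eps : Q → Γ → Option (Q × List Γ)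
  /-- moves which read an input letter -/
  rd : Q → Γ → T → Option (Q × List Γ)
  /-- determinism -/
  det : ∀ q Z, eps q Z ≠ none → ∀ t, rd q Z t = none

/-- One move of the automaton; a configuration consists of the state, the stack (top first) and the
rest of the input. -/
inductive DPDA.Move {T : Type*} (P : DPDA T) :
    P.Q × List P.Γ × List T → P.Q × List P.Γ × List T → Prop
  | eps (q : P.Q) (Z : P.Γ) (s : List P.Γ) (w : List T) (q' : P.Q) (g : List P.Γ)
      (h : P.eps q Z = some (q', g)) : DPDA.Move P (q, Z :: s, w) (q', g ++ s, w)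
  | rd (q : P.Q) (Z : P.Γ) (s : List P.Γ) (t : T) (w : List T) (q' : P.Q) (g : List P.Γ)
      (h : P.rd q Z t = some (q', g)) : DPDA.Move P (q, Z :: s, t :: w) (q', g ++ s, w)

/-- The language accepted by final states. -/
def DPDA.language {T : Type*} (P : DPDA T) : Language T :=
  {w | ∃ q ∈ P.acc, ∃ s, Relation.ReflTransGen P.Move (P.start, [P.bot], w) (q, s, [])}

/-- A language is deterministic context-free if it is accepted by a deterministic pushdown
automaton. -/
def IsDCF {T : Type*} (L : Language T) : Prop := ∃ P : DPDA T, P.language = L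

/-! ### Window systems -/

/-- A deterministic rewriting process on stacks over `Γ` (top first): the moves look only at the
`K` topmost symbols and replace them. The stack contains the state as a symbol. -/
structure WinSys (T : Type*) where
  /-- stack symbols -/
  Γ : Type
  /-- the symbols which may occur -/
  G : Set Γ
  finG : G.Finite
  /-- the size of the window -/
  K : ℕ
  /-- the initial stack -/
  init : List Γ
  initG : ∀ x ∈ init, x ∈ G
  /-- moves without input, as a function of the window -/
  e : List Γ → Option (List Γ)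
  /-- moves which read a letter, as a function of the window; used only if `e` gives `none` -/
  f : T → List Γ → Option (List Γ)
  /-- acceptance, as a property of the window; used only if `e` gives `none` -/
  acc : Set (List Γ)
  eG : ∀ w r, (∀ x ∈ w, x ∈ G) → e w = some r → ∀ x ∈ r, x ∈ G
  fG : ∀ t w r, (∀ x ∈ w, x ∈ G) → f t w = some r → ∀ x ∈ r, x ∈ G

/-- `P.Acc s w`: started with the stack `s`, the system accepts the input `w`. -/
inductive WinSys.Acc {T : Type*} (P : WinSys T) : List P.Γ → List T → Prop
  | stop (s : List P.Γ) (h : P.e (s.take P.K) = none) (h' : s.take P.K ∈ P.acc) :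
      WinSys.Acc P s []
  | eps (s r : List P.Γ) (w : List T) (h : P.e (s.take P.K) = some r)
      (h' : WinSys.Acc P (r ++ s.drop P.K) w) : WinSys.Acc P s w
  | rd (s r : List P.Γ) (t : T) (w : List T) (h : P.e (s.take P.K) = none)
      (h' : P.f t (s.take P.K) = some r) (h'' : WinSys.Acc P (r ++ s.drop P.K) w) :
      WinSys.Acc P s (t :: w)

/-! ### Words and norms in a monoid -/

section
variable {M : Type} [CancelMonoid M] {A : Type} (φ : A → M)

/-- The value of a word. -/
def pr (l : List A) : M := (l.map φ).prod

/-- The norm of an element: the least length of a word with this value. -/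
noncomputable def nrm (m : M) : ℕ := sInf {n | ∃ l : List A, l.length = n ∧ pr φ l = m}

/-- Geodesic words. -/
def Geo (l : List A) : Prop := l.length = nrm φ (pr φ l)

@[simp] theorem pr_nil : pr φ ([] : List A) = 1 := rfl

@[simp] theorem pr_cons (a : A) (l : List A) : pr φ (a :: l) = φ a * pr φ l := by simp [pr]

@[simp] theorem pr_append (l l' : List A) : pr φ (l ++ l') = pr φ l * pr φ l' := by simp [pr]

theorem nrm_le (l : List A) : nrm φ (pr φ l) ≤ l.length := Nat.sInf_le ⟨l, rfl, rfl⟩

/-- The language of all words `u # v^rev` with `u`, `v` nonempty and of the same value. -/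
def WPM : Language (Option A) :=
  {w | ∃ u v : List A, u ≠ [] ∧ v ≠ [] ∧ pr φ u = pr φ v ∧
    w = u.map some ++ none :: v.reverse.map some}

variable (hs : ∀ m : M, ∃ l : List A, pr φ l = m)
include hs

theorem exists_geo (m : M) : ∃ l : List A, pr φ l = m ∧ l.length = nrm φ m := by
  have : (nrm φ m) ∈ {n | ∃ l : List A, l.length = n ∧ pr φ l = m} := by
    apply Nat.sInf_mem
    obtain ⟨l, hl⟩ := hs m
    exact ⟨l.length, l, rfl, hl⟩
  obtain ⟨l, h1, h2⟩ := this
  exact ⟨l, h2, h1⟩

theorem nrm_mul_le (m m' : M) : nrm φ (m * m') ≤ nrm φ m + nrm φ m' := by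
  obtain ⟨l, h1, h2⟩ := exists_geo φ hs m
  obtain ⟨l', h1', h2'⟩ := exists_geo φ hs m'
  have := nrm_le φ (l ++ l')
  rw [pr_append, h1, h1', List.length_append, h2, h2'] at this
  exact this

theorem finite_ball [Finite A] (R : ℕ) : {m : M | nrm φ m ≤ R}.Finite := by
  have h : {m : M | nrm φ m ≤ R} ⊆ pr φ '' {l : List A | l.length ≤ R} := by
    intro m hm
    obtain ⟨l, h1, h2⟩ := exists_geo φ hs m
    exact ⟨l, by simpa [h2] using hm, h1⟩
  exact ((List.finite_length_le A R).image _).subset h

omit hs in
/-- Factors of geodesic words are geodesic. -/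
theorem Geo.factor {l s t u : List A} (h : Geo φ l) (hl : l = s ++ t ++ u) : Geo φ t := by
  unfold Geo at *
  apply le_antisymm _ (nrm_le φ t)
  have hne : {n | ∃ l : List A, l.length = n ∧ pr φ l = pr φ t}.Nonempty := ⟨_, t, rfl, rfl⟩
  obtain ⟨t', h1, h2⟩ := Nat.sInf_mem hne
  have h3 := nrm_le φ (s ++ t' ++ u)
  have h4 : pr φ (s ++ t' ++ u) = pr φ l := by rw [hl]; simp [h2]
  rw [h4, ← h, hl] at h3
  simp only [List.length_append] at h3
  have : nrm φ (pr φ t) = t'.length := h1.symm
  omega

end

/-- Finiteness of the sets of quotients. -/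
theorem finite_rdiv {M : Type} [CancelMonoid M] {F G : Set M} (hF : F.Finite) (hG : G.Finite) :
    {m : M | ∃ g ∈ G, m * g ∈ F}.Finite := by
  have h : {m : M | ∃ g ∈ G, m * g ∈ F} = ⋃ g ∈ G, (fun m => m * g) ⁻¹' F := by
    ext m; simp
  rw [h]
  exact hG.biUnion fun g _ => hF.preimage (fun a _ b _ hab => mul_right_cancel hab)

theorem finite_ldiv {M : Type} [CancelMonoid M] {F G : Set M} (hF : F.Finite) (hG : G.Finite) :
    {m : M | ∃ g ∈ G, g * m ∈ F}.Finite := by
  have h : {m : M | ∃ g ∈ G, g * m ∈ F} = ⋃ g ∈ G, (fun m => g * m) ⁻¹' F := by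
    ext m; simp
  rw [h]
  exact hG.biUnion fun g _ => hF.preimage (fun a _ b _ hab => mul_left_cancel hab)

/-! ### The data extracted from a context-free grammar -/

section
variable {A : Type} {X : Type} (C : X → Set (List A × List A))

/-- `Step C x a v y`: every completion of `y` gives, after adding `a` and `v` in front, a
completion of `x`. -/
def Step (x : X) (a v : List A) (y : X) : Prop :=
  ∀ U V : List A, (U, V) ∈ C y → (a ++ U, v ++ V) ∈ C x

variable {C}

theorem Step.refl (x : X) : Step C x [] [] x := fun _ _ h => h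

theorem Step.trans {x y z : X} {a v a' v' : List A} (h : Step C x a v y) (h' : Step C y a' v' z) :
    Step C x (a ++ a') (v ++ v') z := by
  intro U V hz
  have := h _ _ (h' U V hz)
  simpa [List.append_assoc] using this

end

/-- The data extracted from a context-free grammar for the word problem. `C x` is the set of
completions (pairs of words) of the state `x`. -/
structure CFData {M : Type} [CancelMonoid M] {A : Type} (φ : A → M) where
  /-- states -/
  X : Type
  finX : Finite X
  /-- completions -/
  C : X → Set (List A × List A)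
  /-- the top state -/
  top : X
  hC : ∀ u v : List A, (u, v) ∈ C top ↔ pr φ u = pr φ v
  ne : ∀ x, (C x).Nonempty
  ctx : ∀ x, ∃ a v : List A, Step C top a v x
  /-- the finite set of the values of the pieces -/
  E : Set M
  finE : E.Finite
  /-- a boundary in the first word -/
  uside : ∀ (x : X) (U₁ U₂ V : List A), (U₁ ++ U₂, V) ∈ C x →
    ∃ (y : X) (a b₁ b₂ c v₁ v₂ : List A), U₁ = a ++ b₁ ∧ U₂ = b₂ ++ c ∧ V = v₁ ++ v₂ ∧
      Step C x a v₁ y ∧ (b₁ ++ U₂, v₂) ∈ C y ∧
      ((b₁ = [] ∧ b₂ = []) ∨ (b₁ ≠ [] ∧ b₂ ≠ [] ∧ pr φ (b₁ ++ b₂) ∈ E))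
  /-- a boundary in the second word -/
  vside : ∀ (u v₁ v₂ : List A), pr φ u = pr φ (v₁ ++ v₂) →
    ∃ (y : X) (a₁ a₂ g d₁ d₂ c : List A), u = a₁ ++ a₂ ∧ v₁ = g ++ d₁ ∧ v₂ = d₂ ++ c ∧
      Step C top a₁ g y ∧ (a₂, d₁ ++ v₂) ∈ C y ∧
      ((d₁ = [] ∧ d₂ = []) ∨ pr φ (d₁ ++ d₂) ∈ E)
  /-- small pieces around the boundary between `t` and `s` -/
  awin : ∀ (k t s : List A) (g m : ℕ), pr φ k = pr φ (t ++ s) →
    (∀ p q r : List A, s = p ++ q ++ r → pr φ q ∈ E → q.length ≤ g) → 1 ≤ m → m ≤ s.length →
    (∃ (y : X) (k₁ k₂ s₂ s₁ : List A), k = k₁ ++ k₂ ∧ s = s₂ ++ s₁ ∧ s₂.length < m ∧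
      Step C top k₁ (t ++ s₂) y ∧ (k₂, s₁) ∈ C y) ∨
    (∃ t₁ t₂ s₂ s₁ : List A, t = t₁ ++ t₂ ∧ s = s₂ ++ s₁ ∧ pr φ (t₂ ++ s₂) ∈ E ∧
      m ≤ s₂.length ∧ s₂.length ≤ m + g)

end Pool.Agent.W399.WP
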