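import Pool.Agent.W399.WP.Ph1
import Pool.Agent.W933.WP399.Sim
import Pool.Agent.W978.WP399.RED
import Pool.Agent.W585.WP399.GU
import Pool.Agent.W571.WP399.GV
import Pool.Agent.W179.WP399.GW
import Pool.Agent.W797.WP399.GRAW
import Pool.Agent.W571.WP399.GSH
import Pool.Agent.W177.WP399.KP
import Pool.Agent.W589.WP399.CNT
import Pool.Agent.W253.WP399.LBL
import Pool.Agent.W935.WP399.CUT
import Pool.Agent.W465.WP399.INS
import Pool.Agent.W639.WP399.GFIN
import Pool.Agent.W318.WP399.CHN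

/-!
# Cancellative semigroups with context-free word problem: assembly
-/

set_option autoImplicit false

universe u

namespace Pool.Agent.W399.WP

section
variable {M : Type} [CancelMonoid M] {A : Type} {φ : A → M}

/-- Bound for the initial labels. -/
theorem k0_bound [Finite A] (D : CFData φ) (Dp : ℕ) : ∃ R₀ : ℕ,
    ∀ (n : List A × D.X) (V : List A), n.1.length ≤ Dp → (n.1, V) ∈ D.C n.2 →
      nrm φ (pr φ V) ≤ R₀ := by
  have hX := D.finX
  have f1 : {n : List A × D.X | n.1.length ≤ Dp}.Finite := by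
    have : {n : List A × D.X | n.1.length ≤ Dp} = {l : List A | l.length ≤ Dp} ×ˢ Set.univ := by
      ext; simp
    rw [this]
    exact (List.finite_length_le A Dp).prod Set.finite_univ
  have f2 : (⋃ n ∈ {n : List A × D.X | n.1.length ≤ Dp},
      {m : M | ∃ V, (n.1, V) ∈ D.C n.2 ∧ m = pr φ V}).Finite := by
    refine f1.biUnion fun n _ => Set.Subsingleton.finite ?_
    rintro _ ⟨V, hV, rfl⟩ _ ⟨V', hV', rfl⟩
    obtain ⟨a, v, hc⟩ := D.ctx n.2
    have h1 := (D.hC _ _).1 (hc _ _ hV)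
    have h2 := (D.hC _ _).1 (hc _ _ hV')
    rw [h1, pr_append, pr_append] at h2
    exact mul_left_cancel h2
  obtain ⟨R₀, hR₀⟩ := (f2.image (nrm φ)).bddAbove
  refine ⟨R₀, fun n V hn hV => hR₀ ⟨pr φ V, ?_, rfl⟩⟩
  simp only [Set.mem_iUnion]
  exact ⟨n, hn, V, hV, rfl⟩

/-- The theorem for monoids. -/
theorem main_monoid [Finite A] [Nonempty A] (hs : ∀ m : M, ∃ l : List A, pr φ l = m)
    (hcf : (WPM φ).IsContextFree) : IsDCF (WPM φ) := by
  obtain ⟨Rw⟩ := W797.WP399.graw W639.WP399.gfin W585.WP399.gu W571.WP399.gv W179.WP399.gw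
    M inferInstance A φ hcf
  obtain ⟨D⟩ := W571.WP399.gsh M inferInstance A inferInstance φ Rw
  obtain ⟨Dp, ρ₀, hKP⟩ := W177.WP399.kp M inferInstance A inferInstance φ hs D
  obtain ⟨ρ, hρ⟩ : ∃ ρ, ρ = max ρ₀ 1 := ⟨_, rfl⟩
  have hρ1 : 1 ≤ ρ := by omega
  have hKp : Kp φ D ρ Dp := hKP ρ (by omega)
  obtain ⟨Nc, hCut⟩ := W935.WP399.cut W318.WP399.nod W318.WP399.chn W253.WP399.lbl W589.WP399.cnt
    M inferInstance A inferInstance φ hs D ρ Dp hρ1 hKp
  obtain ⟨N, hN⟩ : ∃ N, N = max Nc 1 := ⟨_, rfl⟩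
  obtain ⟨lbl1, lbl2, lbl3⟩ := W253.WP399.lbl M inferInstance A inferInstance φ hs D
  obtain ⟨R₁, hR₁⟩ := lbl3 (max Dp (N * ρ))
  obtain ⟨R₀, hR₀⟩ := k0_bound D Dp
  obtain ⟨g, hg, hE, hI⟩ := W465.WP399.ins M inferInstance A inferInstance φ hs D
  obtain ⟨R, hR⟩ : ∃ R, R = max (2 * g) (max R₁ R₀) := ⟨_, rfl⟩
  obtain ⟨c₀, hc₀⟩ := hI R
  obtain ⟨c, hc⟩ : ∃ c, c = max c₀ (max R 1) := ⟨_, rfl⟩
  have H : Hyp D ρ Dp N g c R :=
    { hs := hs
      nod := fun Low n hn => W318.WP399.nod M inferInstance A φ D Dp Low n hn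
      chn := W318.WP399.chn M inferInstance A φ D ρ Dp hKp
      vrc := W318.WP399.vrc M inferInstance A φ D ρ Dp hKp
      lbl1 := lbl1
      lbl2 := lbl2
      lblR := fun n n' Wl Wm t t' g' h1 h2 h3 h4 h5 h6 =>
        (hR₁ n n' Wl Wm t t' g' (by omega) (by omega) (by omega) h4 h5 h6).trans (by omega)
      k0R := fun n V h1 h2 => (hR₀ n V h1 h2).trans (by omega)
      cut := fun Top Mid Low n' t t' h1 h2 h3 h4 h5 =>
        hCut Top Mid Low n' t t' h1 (by omega) h3 h4 h5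
      ins := fun K r x s s₂ s₀ => hc₀ c (by omega) K r x s s₂ s₀
      hE := hE
      hg := hg
      hR := by omega
      hc := by omega
      hc1 := by omega
      hN := by omega }
  have hF : {m : M | ∃ g' ∈ Set.range φ, m * g' ∈ {m : M | nrm φ m ≤ ρ}}.Finite :=
    finite_rdiv (finite_ball φ hs ρ) (Set.finite_range φ)
  obtain ⟨N₁, hN₁⟩ := W589.WP399.cnt M inferInstance A inferInstance φ hs D ρ Dp hρ1 hKp _ hF
  obtain ⟨P, hP⟩ := sys_language H hρ1 N₁ (fun Top Low a h1 h2 =>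
    hN₁ Top Low h1 ⟨φ a, ⟨a, rfl⟩, h2⟩)
  have := W933.WP399.sim (Option A) P
  rw [← hP]
  exact this

end

/-- The empty language is deterministic context-free. -/
theorem isDCF_empty {T : Type} (L : Language T) (hL : ∀ w, w ∉ L) : IsDCF L := by
  refine ⟨⟨Unit, Unit, inferInstance, inferInstance, (), (), ∅, fun _ _ => none,
    fun _ _ _ => none, fun _ _ _ _ => rfl⟩, ?_⟩
  ext w
  constructor
  · rintro ⟨q, hq, _⟩
    exact hq.elim
  · intro h
    exact absurd h (hL w)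

/-- The main theorem. -/
theorem main {S : Type u} [Semigroup S] [IsCancelMul S] {A : Type} [Finite A] (φ : A → S)
    (hcf : (WordProblem φ).IsContextFree) : IsDCF (WordProblem φ) := by
  rcases isEmpty_or_nonempty A with hA | hA
  · apply isDCF_empty
    rintro w ⟨a, _⟩
    exact hA.elim a
  · obtain ⟨M, _, ψ, hs, h⟩ := W978.WP399.red S inferInstance inferInstance A inferInstance
      hA φ
    rw [h] at hcf ⊢
    exact main_monoid hs hcf

end Pool.Agent.W399.WP
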