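import Pool.Agent.W399.WP.Stm
import Pool.Agent.H966R2.CFStruct

/-!
# Statements for the extraction of the data from a grammar

`Pool.Agent.H966R2.CF.D g Set.univ α w` : the form `α` derives the terminal word `w`.
-/

set_option autoImplicit false

namespace Pool.Agent.W399.WP

open Pool.Agent.H966R2.CF

section
variable {A : Type} (g : ContextFreeGrammar (Option A))

/-- Forms. -/
abbrev Fm : Type := List (Symbol (Option A) g.NT)

/-- `Dv g α w`: the form `α` derives the word `w` without `#`. -/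
def Dv (α : Fm g) (w : List A) : Prop := D g Set.univ α (w.map some)

/-- The completions of the form `α`: it derives `U # V^rev`. -/
def CG (α : Fm g) : Set (List A × List A) :=
  {p | D g Set.univ α (p.1.map some ++ none :: p.2.reverse.map some)}

/-- The initial form. -/
def st : Fm g := [Symbol.nonterminal g.initial]

/-- The relevant forms: suffixes of the initial form and of the outputs of the rules. -/
def Forms : Set (Fm g) := {α | α <:+ st g ∨ ∃ r ∈ g.rules, α <:+ r.output}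

variable {M : Type} [CancelMonoid M] (φ : A → M)

/-- The words derived from `β` have a fixed value, by cancellation (left version). -/
def LU (β : Fm g) : Prop := ∃ p q r : M, ∀ w : List A, Dv g β w → p * pr φ w * q = r

/-- The words derived from `β`, read backwards, have a fixed value, by cancellation. -/
def RU (β : Fm g) : Prop := ∃ p q r : M, ∀ w : List A, Dv g β w → p = q * pr φ w.reverse * r

/-- The values of the pieces. -/
def EG : Set M :=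
  {m | ∃ β ∈ Forms g, (LU g φ β ∧ ∃ w, Dv g β w ∧ m = pr φ w) ∨
    (RU g φ β ∧ ∃ w, Dv g β w ∧ m = pr φ w.reverse)}

/-- `α` has a context. -/
def HasCtx (α : Fm g) : Prop := ∃ a v : List A, Step (CG g) (st g) a v α

end

/-- (GFIN) -/
def S_GFIN : Prop := ∀ (M : Type) (_ : CancelMonoid M) (A : Type)
  (φ : A → M) (g : ContextFreeGrammar (Option A)), (Forms g).Finite ∧ (EG g φ).Finite

/-- (GU) -/
def S_GU : Prop := ∀ (M : Type) (_ : CancelMonoid M) (A : Type)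
  (φ : A → M) (g : ContextFreeGrammar (Option A)), g.language = WPM φ →
  ∀ α ∈ Forms g, HasCtx g α → ∀ U₁ U₂ V : List A, (U₁ ++ U₂, V) ∈ CG g α →
    ∃ y ∈ Forms g, ∃ a b₁ b₂ c v₁ v₂ : List A, U₁ = a ++ b₁ ∧ U₂ = b₂ ++ c ∧ V = v₁ ++ v₂ ∧
      Step (CG g) α a v₁ y ∧ (b₁ ++ U₂, v₂) ∈ CG g y ∧
      ((b₁ = [] ∧ b₂ = []) ∨ (b₁ ≠ [] ∧ b₂ ≠ [] ∧ pr φ (b₁ ++ b₂) ∈ EG g φ))

/-- (GV) -/
def S_GV : Prop := ∀ (M : Type) (_ : CancelMonoid M) (A : Type)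
  (φ : A → M) (g : ContextFreeGrammar (Option A)), g.language = WPM φ →
  ∀ α ∈ Forms g, HasCtx g α → ∀ u v₁ v₂ : List A, (u, v₁ ++ v₂) ∈ CG g α →
    ∃ y ∈ Forms g, ∃ a₁ a₂ h d₁ d₂ c : List A, u = a₁ ++ a₂ ∧ v₁ = h ++ d₁ ∧ v₂ = d₂ ++ c ∧
      Step (CG g) α a₁ h y ∧ (a₂, d₁ ++ v₂) ∈ CG g y ∧
      ((d₁ = [] ∧ d₂ = []) ∨ pr φ (d₁ ++ d₂) ∈ EG g φ)

/-- (GW) -/
def S_GW : Prop := ∀ (M : Type) (_ : CancelMonoid M) (A : Type)
  (φ : A → M) (g : ContextFreeGrammar (Option A)), g.language = WPM φ →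
  ∀ α ∈ Forms g, HasCtx g α → ∀ (k t s : List A) (h m : ℕ), (k, t ++ s) ∈ CG g α →
    (∀ p q r : List A, s = p ++ q ++ r → pr φ q ∈ EG g φ → q.length ≤ h) → 1 ≤ m →
    m ≤ s.length →
    (∃ y ∈ Forms g, ∃ k₁ k₂ s₂ s₁ : List A, k = k₁ ++ k₂ ∧ s = s₂ ++ s₁ ∧ s₂.length < m ∧
      Step (CG g) α k₁ (t ++ s₂) y ∧ (k₂, s₁) ∈ CG g y) ∨
    (∃ t₁ t₂ s₂ s₁ : List A, t = t₁ ++ t₂ ∧ s = s₂ ++ s₁ ∧ pr φ (t₂ ++ s₂) ∈ EG g φ ∧
      m ≤ s₂.length ∧ s₂.length ≤ m + h)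

/-- The data for nonempty words. -/
structure RawData {M : Type} [CancelMonoid M] {A : Type} (φ : A → M) where
  /-- states -/
  X : Type
  finX : Finite X
  /-- completions -/
  C : X → Set (List A × List A)
  /-- the initial state -/
  i : X
  hi : ∀ u v : List A, (u, v) ∈ C i ↔ (u ≠ [] ∧ v ≠ [] ∧ pr φ u = pr φ v)
  /-- the values of the pieces -/
  E : Set M
  finE : E.Finite
  uside : ∀ (x : X) (U₁ U₂ V : List A), (∃ a v : List A, Step C i a v x) → (U₁ ++ U₂, V) ∈ C x →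
    ∃ (y : X) (a b₁ b₂ c v₁ v₂ : List A), U₁ = a ++ b₁ ∧ U₂ = b₂ ++ c ∧ V = v₁ ++ v₂ ∧
      Step C x a v₁ y ∧ (b₁ ++ U₂, v₂) ∈ C y ∧
      ((b₁ = [] ∧ b₂ = []) ∨ (b₁ ≠ [] ∧ b₂ ≠ [] ∧ pr φ (b₁ ++ b₂) ∈ E))
  vside : ∀ (u v₁ v₂ : List A), (u, v₁ ++ v₂) ∈ C i →
    ∃ (y : X) (a₁ a₂ g d₁ d₂ c : List A), u = a₁ ++ a₂ ∧ v₁ = g ++ d₁ ∧ v₂ = d₂ ++ c ∧
      Step C i a₁ g y ∧ (a₂, d₁ ++ v₂) ∈ C y ∧
      ((d₁ = [] ∧ d₂ = []) ∨ pr φ (d₁ ++ d₂) ∈ E)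
  awin : ∀ (k t s : List A) (g m : ℕ), (k, t ++ s) ∈ C i →
    (∀ p q r : List A, s = p ++ q ++ r → pr φ q ∈ E → q.length ≤ g) → 1 ≤ m → m ≤ s.length →
    (∃ (y : X) (k₁ k₂ s₂ s₁ : List A), k = k₁ ++ k₂ ∧ s = s₂ ++ s₁ ∧ s₂.length < m ∧
      Step C i k₁ (t ++ s₂) y ∧ (k₂, s₁) ∈ C y) ∨
    (∃ t₁ t₂ s₂ s₁ : List A, t = t₁ ++ t₂ ∧ s = s₂ ++ s₁ ∧ pr φ (t₂ ++ s₂) ∈ E ∧
      m ≤ s₂.length ∧ s₂.length ≤ m + g)

/-- (GRAW) The data for nonempty words, from the previous parts. -/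
def S_GRAW : Prop := ∀ (M : Type) (_ : CancelMonoid M) (A : Type)
  (φ : A → M), (WPM φ).IsContextFree → Nonempty (RawData φ)

/-- (GSH) From nonempty words to all words: put a fixed letter in front. -/
def S_GSH : Prop := ∀ (M : Type) (_ : CancelMonoid M) (A : Type) (_ : Nonempty A)
  (φ : A → M), RawData φ → Nonempty (CFData φ)

end Pool.Agent.W399.WP
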