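import Pool.Agent.W399.WP.Stm

/-!
# A criterion for the language of a window system
-/

set_option autoImplicit false

namespace Pool.Agent.W399.WP

theorem acc_iff {T : Type} (P : WinSys T) (I : List P.Γ → (List T → Prop) → Prop)
    (μ : List P.Γ → ℕ)
    (h : ∀ s L, I s L →
      (∃ r, P.e (s.take P.K) = some r ∧ I (r ++ s.drop P.K) L ∧ μ (r ++ s.drop P.K) < μ s) ∨
      (P.e (s.take P.K) = none ∧ (s.take P.K ∈ P.acc ↔ L []) ∧
        ∀ t, (P.f t (s.take P.K) = none ∧ ∀ w, ¬ L (t :: w)) ∨
          (∃ r, P.f t (s.take P.K) = some r ∧ I (r ++ s.drop P.K) (fun w => L (t :: w))))) :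
    ∀ w s L, I s L → (P.Acc s w ↔ L w) := by
  intro w
  induction w with
  | nil =>
    intro s L hI
    induction hn : μ s using Nat.strong_induction_on generalizing s with
    | _ n ih =>
      rcases h s L hI with ⟨r, h1, h2, h3⟩ | ⟨h1, h2, h3⟩
      · have e := ih _ (hn ▸ h3) (r ++ s.drop P.K) h2 rfl
        rw [← e]
        constructor
        · intro ha
          cases ha with
          | stop _ h' _ => rw [h1] at h'; exact absurd h' (by simp)
          | eps _ r' _ h' h'' => rw [h1] at h'; cases h'; exact h''
        · intro ha
          exact WinSys.Acc.eps _ _ _ h1 ha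
      · rw [← h2]
        constructor
        · intro ha
          cases ha with
          | stop _ _ h' => exact h'
          | eps _ r' _ h' h'' => rw [h1] at h'; exact absurd h' (by simp)
        · intro ha
          exact WinSys.Acc.stop _ h1 ha
  | cons t w ihw =>
    intro s L hI
    induction hn : μ s using Nat.strong_induction_on generalizing s with
    | _ n ih =>
      rcases h s L hI with ⟨r, h1, h2, h3⟩ | ⟨h1, h2, h3⟩
      · have e := ih _ (hn ▸ h3) (r ++ s.drop P.K) h2 rfl
        rw [← e]
        constructor
        · intro ha
          cases ha with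
          | eps _ r' _ h' h'' => rw [h1] at h'; cases h'; exact h''
          | rd _ r' _ _ h' _ _ => rw [h1] at h'; exact absurd h' (by simp)
        · intro ha
          exact WinSys.Acc.eps _ _ _ h1 ha
      · rcases h3 t with ⟨h4, h5⟩ | ⟨r, h4, h5⟩
        · constructor
          · intro ha
            cases ha with
            | eps _ r' _ h' h'' => rw [h1] at h'; exact absurd h' (by simp)
            | rd _ r' _ _ _ h' _ => rw [h4] at h'; exact absurd h' (by simp)
          · intro ha
            exact absurd ha (h5 w)
        · rw [← ihw _ _ h5]
          constructor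
          · intro ha
            cases ha with
            | eps _ r' _ h' h'' => rw [h1] at h'; exact absurd h' (by simp)
            | rd _ r' _ _ _ h' h'' => rw [h4] at h'; cases h'; exact h''
          · intro ha
            exact WinSys.Acc.rd _ _ _ _ h1 h4 ha

end Pool.Agent.W399.WP
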