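import Pool.Agent.W399.WP.Gen

/-!
# The window system for the word problem
-/

set_option autoImplicit false

namespace Pool.Agent.W399.WP

open Classical

/-- The stack symbols. -/
inductive Sym (M A X : Type)
  | st1 : Sym M A X
  | st2 (σ : M) (f : Bool) : Sym M A X
  | lay2 (σ₀ : M) (K : Set M) : Sym M A X
  | lay1 (V : Set (List A × X)) (K : Set ((List A × X) × M)) : Sym M A X
  | blk (l : List A) (N : Set (List A × X)) : Sym M A X

section
variable {M A X : Type}

/-- The word of a symbol. -/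
def Sym.wd : Sym M A X → List A
  | .blk l _ => l
  | _ => []

/-- The word of a stack of symbols. -/
def bwS (s : List (Sym M A X)) : List A := (s.reverse.map Sym.wd).flatten

/-- The nodes at the top of a stack of symbols. -/
def ndd (top : X) : List (Sym M A X) → Set (List A × X)
  | .blk _ N :: _ => N
  | _ => {([], top)}

/-- The labels of a layer. -/
def lab : Sym M A X → Set M
  | .lay2 _ K => K
  | .lay1 _ K => {g | ∃ q, (q, g) ∈ K}
  | _ => ∅

end

section
variable {M : Type} [CancelMonoid M] {A : Type} {φ : A → M}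

/-- A geodesic word for `m`. -/
noncomputable def gw (φ : A → M) (m : M) : List A :=
  if h : ∃ l : List A, pr φ l = m ∧ l.length = nrm φ m then h.choose else []

theorem gw_spec (hs : ∀ m : M, ∃ l : List A, pr φ l = m) (m : M) :
    pr φ (gw φ m) = m ∧ (gw φ m).length = nrm φ m := by
  have h := exists_geo φ hs m
  unfold gw
  rw [dif_pos h]
  exact h.choose_spec

theorem gw_geo (hs : ∀ m : M, ∃ l : List A, pr φ l = m) (m : M) : Geo φ (gw φ m) := by
  obtain ⟨h1, h2⟩ := gw_spec hs m
  unfold Geo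
  rw [h1, h2]

variable (D : CFData φ)

/-- The nodes at the end of the word `W` after the nodes of `N0`. -/
def nxt (Dp : ℕ) (N0 : Set (List A × D.X)) (W : List A) : Set (List A × D.X) :=
  {n | n.1.length ≤ Dp ∧ ∃ n' ∈ N0, ∃ w v : List A, n'.1 ++ W = w ++ n.1 ∧ Step D.C n'.2 w v n.2}

theorem ND_cons (Dp : ℕ) (B : Blk A) (Bs : List (Blk A)) :
    ND D Dp (B :: Bs) = nxt D Dp (ND D Dp Bs) B.1 := rfl

/-- Encoding of stacks of blocks. -/
def enc (Dp : ℕ) : List (Blk A) → List (Sym M A D.X)
  | [] => []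
  | B :: Bs => .blk B.1 (ND D Dp (B :: Bs)) :: enc Dp Bs

@[simp] theorem enc_length (Dp : ℕ) (Bs : List (Blk A)) : (enc D Dp Bs).length = Bs.length := by
  induction Bs with
  | nil => rfl
  | cons B Bs ih => simp [enc, ih]

theorem enc_drop (Dp : ℕ) (Bs : List (Blk A)) (n : ℕ) :
    (enc D Dp Bs).drop n = enc D Dp (Bs.drop n) := by
  induction Bs generalizing n with
  | nil => simp [enc]
  | cons B Bs ih =>
    cases n with
    | zero => rfl
    | succ n => simp [enc, ih]

theorem map_wd_enc (Dp : ℕ) (Bs : List (Blk A)) :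
    (enc D Dp Bs).map Sym.wd = Bs.map Prod.fst := by
  induction Bs with
  | nil => rfl
  | cons B Bs ih => simp [enc, ih, Sym.wd]

theorem bwS_enc_take (Dp : ℕ) (Bs : List (Blk A)) (n : ℕ) :
    bwS ((enc D Dp Bs).take n) = bw (Bs.take n) := by
  unfold bwS bw
  rw [List.map_reverse, List.map_reverse, List.map_take, map_wd_enc, List.map_take]

theorem ndd_enc (Dp : ℕ) (Bs : List (Blk A)) : ndd D.top (enc D Dp Bs) = ND D Dp Bs := by
  cases Bs with
  | nil => rfl
  | cons B Bs => rfl

/-- Only the first symbol matters. -/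
theorem ndd_take {X : Type} (top : X) (s : List (Sym M A X)) (k : ℕ) (hk : 1 ≤ k) :
    ndd top (s.take k) = ndd top s := by
  cases k with
  | zero => omega
  | succ k =>
    cases s with
    | nil => rfl
    | cons x s => cases x <;> rfl

variable (ρ Dp N g c R : ℕ)

/-- Insertion of a layer above the layer `L`. -/
noncomputable def insn (σ : M) (f : Bool) (L : Sym M A D.X) (r : List (Sym M A D.X)) :
    List (Sym M A D.X) :=
  .st2 (pr φ ((gw φ σ).take (2 * g + 1))) f ::
    .lay2 (pr φ ((gw φ σ).drop (2 * g + 1))) (newK D c g (lab L) (gw φ σ)) :: L :: r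

/-- The new valid nodes after removing the blocks with the word `W`. -/
def nV (N0 V : Set (List A × D.X)) (W : List A) : Set (List A × D.X) :=
  {n | n ∈ N0 ∧ ∃ n₂ ∈ V, ∃ w v : List A, n.1 ++ W = w ++ n₂.1 ∧ Step D.C n.2 w v n₂.2}

/-- The new labels after removing the blocks with the word `W`. -/
def nK (N0 V : Set (List A × D.X)) (K : Set ((List A × D.X) × M)) (σ : M) (W : List A) :
    Set ((List A × D.X) × M) :=
  {p | p.1 ∈ nV D N0 V W ∧ ∃ q', (q', σ) ∈ K ∧ Lab D p.1 W q' p.2}

/-- Going down. -/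
def down (σ : M) (f : Bool) (V : Set (List A × D.X)) (K : Set ((List A × D.X) × M))
    (r : List (Sym M A D.X)) : List (Sym M A D.X) :=
  .st2 1 f :: .lay1 (nV D (ndd D.top (r.drop N)) V (bwS (r.take N)))
    (nK D (ndd D.top (r.drop N)) V K σ (bwS (r.take N))) :: r.drop N

/-- The moves without input. -/
noncomputable def ef (w : List (Sym M A D.X)) : Option (List (Sym M A D.X)) :=
  match w with
  | .st2 σ f :: .lay2 σ₀ K :: r =>
    if σ ∈ K then some (.st2 (σ * σ₀) f :: r)
    else if c + 2 * g + 1 ≤ nrm φ σ then some (insn D g c σ f (.lay2 σ₀ K) r) else none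
  | .st2 σ f :: .lay1 V K :: r =>
    if (r ≠ [] ∧ ∃ q, (q, σ) ∈ K) then some (down D N σ f V K r)
    else if c + 2 * g + 1 ≤ nrm φ σ then some (insn D g c σ f (.lay1 V K) r) else none
  | _ => none

/-- The number of blocks to be merged. -/
noncomputable def mrg (a : A) (r : List (Sym M A D.X)) : ℕ :=
  Nat.findGreatest (fun j => nrm φ (pr φ (bwS (r.take j)) * φ a) ≤ ρ) r.length

/-- The initial valid nodes. -/
def V0 (N0 : Set (List A × D.X)) : Set (List A × D.X) :=
  {n | n ∈ N0 ∧ ∃ V : List A, (n.1, V) ∈ D.C n.2}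

/-- The initial labels. -/
def K0 (N0 : Set (List A × D.X)) : Set ((List A × D.X) × M) :=
  {p | p.1 ∈ N0 ∧ ∃ V : List A, (p.1.1, V) ∈ D.C p.1.2 ∧ p.2 = pr φ V}

/-- The moves reading a letter. -/
noncomputable def ff (t : Option A) (w : List (Sym M A D.X)) : Option (List (Sym M A D.X)) :=
  match t, w with
  | none, .st1 :: r => if r = [] then none else
      some (.st2 1 false :: .lay1 (V0 D (ndd D.top r)) (K0 D (ndd D.top r)) :: r)
  | some a, .st1 :: r => some (.st1 ::
      .blk (gw φ (pr φ (bwS (r.take (mrg D ρ a r))) * φ a))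
        (nxt D Dp (ndd D.top (r.drop (mrg D ρ a r)))
          (gw φ (pr φ (bwS (r.take (mrg D ρ a r))) * φ a))) :: r.drop (mrg D ρ a r))
  | some a, .st2 σ _ :: L :: r =>
    if ∃ k ∈ lab L, ∃ m : M, k = m * (φ a * σ) then some (.st2 (φ a * σ) true :: L :: r) else none
  | _, _ => none

/-- The bounds for the symbols. -/
def Gd : Sym M A D.X → Prop
  | .st1 => True
  | .st2 σ _ => nrm φ σ ≤ c + 2 * g + 1
  | .lay2 σ₀ K => nrm φ σ₀ ≤ c ∧ ∀ k ∈ K, nrm φ k ≤ R
  | .lay1 V K => (∀ q ∈ V, q.1.length ≤ Dp) ∧ ∀ p ∈ K, p.1.1.length ≤ Dp ∧ nrm φ p.2 ≤ R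
  | .blk l N => l.length ≤ ρ ∧ ∀ q ∈ N, q.1.length ≤ Dp

theorem Gd_finite [Finite A] (hs : ∀ m : M, ∃ l : List A, pr φ l = m) :
    {x | Gd D ρ Dp g c R x}.Finite := by
  have hX := D.finX
  have b := finite_ball φ hs
  have f1 : {n : List A × D.X | n.1.length ≤ Dp}.Finite := by
    have : {n : List A × D.X | n.1.length ≤ Dp} = {l : List A | l.length ≤ Dp} ×ˢ Set.univ := by
      ext; simp
    rw [this]
    exact (List.finite_length_le A Dp).prod Set.finite_univ
  have f2 : {p : (List A × D.X) × M | p.1.1.length ≤ Dp ∧ nrm φ p.2 ≤ R}.Finite := by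
    have : {p : (List A × D.X) × M | p.1.1.length ≤ Dp ∧ nrm φ p.2 ≤ R} =
        {n : List A × D.X | n.1.length ≤ Dp} ×ˢ {m : M | nrm φ m ≤ R} := by
      ext; simp
    rw [this]
    exact f1.prod (b R)
  have f3 := (b (c + 2 * g + 1)).prod (Set.finite_univ (α := Bool))
  have f4 := (b c).prod (b R).finite_subsets
  have f5 := f1.finite_subsets.prod f2.finite_subsets
  have f6 := (List.finite_length_le A ρ).prod f1.finite_subsets
  refine ((((((Set.finite_singleton (Sym.st1 : Sym M A D.X)).union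
    (f3.image (fun p => Sym.st2 p.1 p.2))).union
    (f4.image (fun p => Sym.lay2 p.1 p.2))).union
    (f5.image (fun p => Sym.lay1 p.1 p.2))).union
    (f6.image (fun p => Sym.blk p.1 p.2)))).subset ?_
  intro x hx
  cases x with
  | st1 => simp
  | st2 σ f =>
    left; left; left; right
    exact ⟨(σ, f), ⟨hx, Set.mem_univ _⟩, rfl⟩
  | lay2 σ₀ K =>
    left; left; right
    exact ⟨(σ₀, K), ⟨hx.1, fun k hk => hx.2 k hk⟩, rfl⟩
  | lay1 V K =>
    left; right
    exact ⟨(V, K), ⟨fun k hk => hx.1 k hk, fun k hk => hx.2 k hk⟩, rfl⟩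
  | blk l N =>
    right
    exact ⟨(l, N), ⟨hx.1, fun k hk => hx.2 k hk⟩, rfl⟩

/-- The moves without input, guarded. -/
noncomputable def eg (w : List (Sym M A D.X)) : Option (List (Sym M A D.X)) :=
  (ef D N g c w).filter (fun r => decide (∀ x ∈ r, Gd D ρ Dp g c R x))

/-- The moves reading a letter, guarded. -/
noncomputable def fg (t : Option A) (w : List (Sym M A D.X)) : Option (List (Sym M A D.X)) :=
  (ff D ρ Dp t w).filter (fun r => decide (∀ x ∈ r, Gd D ρ Dp g c R x))

/-- Acceptance. -/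
def ac : Set (List (Sym M A D.X)) :=
  {w | ∃ σ V K, w = [.st2 σ true, .lay1 V K] ∧ ∃ q, (q, σ) ∈ K}

/-- The window system. -/
noncomputable def sys [Finite A] (hs : ∀ m : M, ∃ l : List A, pr φ l = m) (Kw : ℕ) :
    WinSys (Option A) where
  Γ := Sym M A D.X
  G := {x | Gd D ρ Dp g c R x}
  finG := Gd_finite D ρ Dp g c R hs
  K := Kw
  init := [.st1]
  initG := by simp [Gd]
  e := eg D ρ Dp N g c R
  f := fg D ρ Dp g c R
  acc := ac D
  eG := by
    intro w r _ h x hx
    unfold eg at h
    rw [Option.filter_eq_some_iff] at h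
    exact (of_decide_eq_true h.2) x hx
  fG := by
    intro t w r _ h x hx
    unfold fg at h
    rw [Option.filter_eq_some_iff] at h
    exact (of_decide_eq_true h.2) x hx

end

end Pool.Agent.W399.WP
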