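import Pool.Agent.W399.WP.Ph2b

/-!
# The first phase
-/

set_option autoImplicit false

namespace Pool.Agent.W399.WP

open Classical

section
variable {M : Type} [CancelMonoid M] {A : Type} {φ : A → M}
variable {D : CFData φ} {ρ Dp N g c R : ℕ}

/-- The path of a list of blocks. -/
def pw (Bs : List (Blk A)) : List A := (Bs.reverse.map Prod.snd).flatten

theorem pw_cons (B : Blk A) (Bs : List (Blk A)) : pw (B :: Bs) = pw Bs ++ B.2 := by simp [pw]

theorem bw_cons (B : Blk A) (Bs : List (Blk A)) : bw (B :: Bs) = bw Bs ++ B.1 := by simp [bw]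

theorem pr_pw {T : List (Blk A)} (h : Good φ ρ T) : pr φ (pw T) = pr φ (bw T) := by
  induction T with
  | nil => rfl
  | cons B T ih => rw [pw_cons, bw_cons, pr_append, pr_append, ih h.1, h.2.2.2.1]

theorem prefix_append_cases {α : Type} {l s t : List α} (h : l <+: s ++ t) (hl : l ≠ []) :
    (l <+: s) ∨ ∃ l', l' ≠ [] ∧ l' <+: t ∧ l = s ++ l' := by
  by_cases hs : l.length ≤ s.length
  · left
    exact List.prefix_of_prefix_length_le h (List.prefix_append _ _) hs
  · right
    have h1 : s <+: l := List.prefix_of_prefix_length_le (List.prefix_append _ _) h (by omega)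
    obtain ⟨l', rfl⟩ := h1
    refine ⟨l', ?_, ?_, rfl⟩
    · rintro rfl
      simp at hs
    · exact (List.prefix_append_right_inj s).1 h

theorem Good.left {T L : List (Blk A)} (h : Good φ ρ (T ++ L)) : Good φ ρ T := by
  induction T with
  | nil => trivial
  | cons B T ih =>
    rw [List.cons_append] at h
    obtain ⟨h1, h2, h3, h4, h5, h6⟩ := h
    refine ⟨ih h1, h2, h3, h4, h5, ?_⟩
    intro r l hr1 hr2 hl1 hl2
    have := h6 r l hr1 (by rw [List.length_append]; omega) hl1 hl2
    rw [List.take_append_of_le_length hr2] at this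
    exact this

theorem good_prefix {T L : List (Blk A)} (h : Good φ ρ (T ++ L)) {r' : ℕ} (h1 : 1 ≤ r')
    (h2 : r' ≤ L.length) {l : List A} (hl : l ≠ []) (hl' : l <+: pw T) :
    ρ < nrm φ (pr φ (bw (L.take r')) * pr φ l) := by
  induction T with
  | nil =>
    exfalso
    apply hl
    have : l <+: [] := hl'
    simpa using this
  | cons B T ih =>
    rw [List.cons_append] at h
    rw [pw_cons] at hl'
    rcases prefix_append_cases hl' hl with h3 | ⟨l', h3, h4, rfl⟩
    · exact ih h.1 h3
    · have h5 := h.2.2.2.2.2 (T.length + r') l' (by omega)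
        (by rw [List.length_append]; omega) h3 h4
      have h6 : (T ++ L).take (T.length + r') = T ++ L.take r' := by
        rw [List.take_append]
        simp
      have h7 : Good φ ρ T := h.1.left
      rw [h6, bw_append, pr_append] at h5
      rw [pr_append, pr_pw h7, ← mul_assoc]
      exact h5

/-- Merging the blocks `T` and a new letter. -/
theorem good_merge (hs : ∀ m : M, ∃ l : List A, pr φ l = m) {T L : List (Blk A)} (a : A)
    (h : Good φ ρ (T ++ L)) (hm : nrm φ (pr φ (bw T) * φ a) ≤ ρ)
    (hmax : ∀ r', 1 ≤ r' → r' ≤ L.length →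
      ρ < nrm φ (pr φ (bw (L.take r')) * (pr φ (bw T) * φ a))) :
    Good φ ρ ((gw φ (pr φ (bw T) * φ a), pw T ++ [a]) :: L) := by
  obtain ⟨e1, e2⟩ := gw_spec hs (pr φ (bw T) * φ a)
  refine ⟨h.right, gw_geo hs _, by rw [e2]; exact hm, ?_, by simp, ?_⟩
  · show pr φ (gw φ (pr φ (bw T) * φ a)) = pr φ (pw T ++ [a])
    rw [e1, pr_append, pr_pw h.left]
    simp
  · intro r l hr1 hr2 hl1 hl2
    rcases prefix_append_cases hl2 hl1 with h3 | ⟨l', h3, h4, rfl⟩
    · exact good_prefix h hr1 hr2 hl1 h3
    · have h5 : l' = [a] := by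
        obtain ⟨t, ht⟩ := h4
        cases l' with
        | nil => exact absurd rfl h3
        | cons b l' =>
          simp only [List.cons_append, List.cons.injEq, List.append_eq_nil_iff] at ht
          rw [ht.1, ht.2.1]
      subst h5
      have := hmax r hr1 hr2
      rw [pr_append, pr_pw h.left]
      simpa [mul_assoc] using this

variable (D ρ Dp) in
/-- Configurations of the first phase. -/
def I1 (s : List (Sym M A D.X)) (L : List (Option A) → Prop) : Prop :=
  ∃ Bs : List (Blk A), s = .st1 :: enc D Dp Bs ∧ Good φ ρ Bs ∧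
    L = fun w => ∃ u v : List A, w = u.map some ++ none :: v.reverse.map some ∧ v ≠ [] ∧
      (Bs ≠ [] ∨ u ≠ []) ∧ pr φ (bw Bs) * pr φ u = pr φ v

theorem I1.gd {s : List (Sym M A D.X)} {L : List (Option A) → Prop}
    (h : I1 D ρ Dp s L) : ∀ x ∈ s, Gd D ρ Dp g c R x := by
  obtain ⟨Bs, rfl, h1, _⟩ := h
  intro y hy
  rw [List.mem_cons] at hy
  rcases hy with rfl | hy
  · trivial
  · exact Gd_enc h1 y hy

theorem start2 (H : Hyp D ρ Dp N g c R) {Bs : List (Blk A)} (hG : Good φ ρ Bs) (hB : Bs ≠ []) :
    I2 D ρ Dp g c R (Sym.st2 1 false :: Sym.lay1 (V0 D (ND D Dp Bs)) (K0 D (ND D Dp Bs)) ::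
      enc D Dp Bs) (fun w => ∃ u v : List A, none :: w = u.map some ++ none :: v.reverse.map some ∧
        v ≠ [] ∧ (Bs ≠ [] ∨ u ≠ []) ∧ pr φ (bw Bs) * pr φ u = pr φ v) := by
  refine ⟨1, false, _, pr φ (bw Bs), pr φ (bw Bs), rfl, ?_, mul_one _, ?_, ?_⟩
  · refine ⟨[], Bs, rfl, ?_, hG, ?_, ?_⟩
    · ext n
      simp [V0, VN, bw]
    · rintro ⟨n, k⟩ ⟨h1, V, hV, hk⟩
      have hk' : k = pr φ V := hk
      subst hk'
      refine ⟨⟨h1, V, ?_⟩, H.k0R n V (ND_len h1) hV, ?_⟩
      · simpa [bw] using hV
      · obtain ⟨t, ht⟩ := H.nod _ _ h1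
        refine ⟨t, ht, ?_⟩
        obtain ⟨a, h2, h3⟩ := ht
        have h4 := h3 _ _ hV
        rw [D.hC] at h4
        rw [pr_append φ t V] at h4
        show pr φ t * pr φ V = _
        rw [← h4, h2]
    · intro t ht
      obtain ⟨n₁, n₂, v₁, v₂, v₃, w, h1, h2, _, h3, h4, h5, h6⟩ := H.chn [] [] Bs t
        (by simpa using hG) (by simpa using ht)
      have h7 := h5 _ _ h6
      have h8 : w ++ (n₂.1 ++ bw ([] : List (Blk A))) = n₁.1 := by
        have e : bw ([] : List (Blk A)) = [] := rfl
        rw [e, List.append_nil] at h4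
        rw [e, List.append_nil, ← h4]
      rw [h8] at h7
      refine ⟨v₁, v₂ ++ v₃, by rw [h1, List.append_assoc], pr φ (v₂ ++ v₃),
        ⟨n₁, h2, v₂ ++ v₃, h7, rfl⟩, ?_⟩
      rw [← pr_append, ← List.append_assoc, ← h1, ht]
  · have := nrm_le φ ([] : List A)
    rw [pr_nil] at this
    simp only [List.length_nil] at this
    omega
  · funext w
    apply propext
    constructor
    · rintro ⟨u, v, h1, h2, _, h3⟩
      cases u with
      | nil =>
        simp only [List.map_nil, List.nil_append, List.cons.injEq, true_and] at h1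
        exact ⟨v, h1, by simpa using h3.symm, Or.inr h2⟩
      | cons b u => simp at h1
    · rintro ⟨v, h1, h2, h3⟩
      refine ⟨[], v, by simp [h1], ?_, Or.inl hB, by simp [h2]⟩
      simpa using h3

theorem step1 (H : Hyp D ρ Dp N g c R) (hρ : 1 ≤ ρ) (N₁ : ℕ)
    (hN₁ : ∀ (Top Low : List (Blk A)) (a : A), Good φ ρ (Top ++ Low) →
      nrm φ (pr φ (bw Top) * φ a) ≤ ρ → Top.length ≤ N₁) (k : ℕ) (hk : N₁ ≤ k)
    (s : List (Sym M A D.X)) (L : List (Option A) → Prop) (h : I1 D ρ Dp s L) :
    Good2 D ρ Dp N g c R (fun s L => I1 D ρ Dp s L ∨ I2 D ρ Dp g c R s L) (k + 2) s L := by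
  have hI1 := h
  obtain ⟨Bs, rfl, hG, rfl⟩ := h
  right
  refine ⟨e_none rfl, ?_, ?_⟩
  · constructor
    · rintro ⟨σ', V, K', h3, _⟩
      have h4 : (Sym.st1 :: (enc D Dp Bs).take (k + 1)) =
          ([Sym.st2 σ' true, Sym.lay1 V K'] : List (Sym M A D.X)) := h3
      simp at h4
    · rintro ⟨u, v, h1, _⟩
      simp at h1
  · intro t
    cases t with
    | none =>
      by_cases hB : Bs = []
      · left
        subst hB
        refine ⟨f_none rfl, ?_⟩
        rintro w ⟨u, v, h1, h2, h3, h4⟩
        cases u with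
        | nil => simp at h3
        | cons b u => simp at h1
      · right
        have hI := start2 H hG hB
        have e1 : ndd D.top ((enc D Dp Bs).take (k + 1)) = ND D Dp Bs := by
          rw [ndd_take _ _ _ (by omega), ndd_enc]
        have e2 : (enc D Dp Bs).take (k + 1) ≠ [] := by
          intro h5
          rw [List.take_eq_nil_iff] at h5
          rcases h5 with h5 | h5
          · omega
          · apply hB
            have := enc_length D Dp Bs
            rw [h5] at this
            exact List.length_eq_zero_iff.1 this.symm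
        have e3 : (Sym.st2 1 false :: Sym.lay1 (V0 D (ND D Dp Bs)) (K0 D (ND D Dp Bs)) ::
            (enc D Dp Bs).take (k + 1)) ++ (enc D Dp Bs).drop (k + 1) = Sym.st2 1 false ::
            Sym.lay1 (V0 D (ND D Dp Bs)) (K0 D (ND D Dp Bs)) :: enc D Dp Bs := by
          simp
        refine ⟨Sym.st2 1 false :: Sym.lay1 (V0 D (ND D Dp Bs)) (K0 D (ND D Dp Bs)) ::
            (enc D Dp Bs).take (k + 1), ?_, ?_⟩
        · apply f_some (s' := (enc D Dp Bs).drop (k + 1))
          · show (if (enc D Dp Bs).take (k + 1) = [] then none else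
              some (Sym.st2 1 false :: Sym.lay1 (V0 D (ndd D.top ((enc D Dp Bs).take (k + 1))))
                (K0 D (ndd D.top ((enc D Dp Bs).take (k + 1)))) ::
                (enc D Dp Bs).take (k + 1))) = _
            rw [if_neg e2, e1]
          · rw [e3]
            exact hI.gd H
        · right
          show I2 D ρ Dp g c R ((Sym.st2 1 false :: Sym.lay1 (V0 D (ND D Dp Bs))
            (K0 D (ND D Dp Bs)) :: (enc D Dp Bs).take (k + 1)) ++ (enc D Dp Bs).drop (k + 1)) _
          rw [e3]
          exact hI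
    | some a =>
      right
      set r := (enc D Dp Bs).take (k + 1) with hr
      set j := mrg D ρ a r with hj
      have hrl : r.length = min (k + 1) Bs.length := by
        rw [hr, List.length_take, enc_length]
      have hP : ∀ i, i ≤ k + 1 → bwS (r.take i) = bw (Bs.take i) := by
        intro i hi
        rw [hr, List.take_take, Nat.min_eq_left hi, bwS_enc_take]
      have hj0 : nrm φ (pr φ (bwS (r.take 0)) * φ a) ≤ ρ := by
        have := nrm_le φ [a]
        simp only [pr_cons, pr_nil, mul_one, List.length_cons, List.length_nil] at this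
        simp only [List.take_zero]
        have e : bwS ([] : List (Sym M A D.X)) = [] := rfl
        rw [e, pr_nil, one_mul]
        omega
      have hj1 : nrm φ (pr φ (bwS (r.take j)) * φ a) ≤ ρ :=
        Nat.findGreatest_spec (P := fun j => nrm φ (pr φ (bwS (r.take j)) * φ a) ≤ ρ)
          (Nat.zero_le _) hj0
      have hjr : j ≤ r.length := Nat.findGreatest_le _
      have hjk : j ≤ k + 1 := by omega
      have hjB : j ≤ Bs.length := by omega
      rw [hP j hjk] at hj1
      have hTL : Bs.take j ++ Bs.drop j = Bs := List.take_append_drop _ _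
      have hG' : Good φ ρ (Bs.take j ++ Bs.drop j) := by rw [hTL]; exact hG
      have hjN : j ≤ N₁ := by
        have := hN₁ _ _ a hG' hj1
        rw [List.length_take] at this
        omega
      have hmax : ∀ r', 1 ≤ r' → r' ≤ (Bs.drop j).length →
          ρ < nrm φ (pr φ (bw ((Bs.drop j).take r')) * (pr φ (bw (Bs.take j)) * φ a)) := by
        intro r' h1 h2
        rw [List.length_drop] at h2
        have e1 : pr φ (bw ((Bs.drop j).take r')) * (pr φ (bw (Bs.take j)) * φ a) =
            pr φ (bw (Bs.take (j + r'))) * φ a := by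
          rw [← mul_assoc, ← pr_append, ← bw_append, List.take_add]
        rw [e1]
        by_contra h3
        have h4 : j + r' ≤ N₁ := by
          have := hN₁ (Bs.take (j + r')) (Bs.drop (j + r')) a
            (by rw [List.take_append_drop]; exact hG) (by omega)
          rw [List.length_take] at this
          omega
        have h5 := Nat.findGreatest_is_greatest
          (P := fun j => nrm φ (pr φ (bwS (r.take j)) * φ a) ≤ ρ) (n := r.length) (k := j + r')
          (by show j < _; omega) (by omega)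
        apply h5
        show nrm φ (pr φ (bwS (r.take (j + r'))) * φ a) ≤ ρ
        rw [hP _ (by omega)]
        omega
      have hGm := good_merge H.hs a hG' hj1 hmax
      set B : Blk A := (gw φ (pr φ (bw (Bs.take j)) * φ a), pw (Bs.take j) ++ [a]) with hBdef
      have hI : I1 D ρ Dp (Sym.st1 :: enc D Dp (B :: Bs.drop j))
          (fun w => ∃ u v : List A, some a :: w = u.map some ++ none :: v.reverse.map some ∧
            v ≠ [] ∧ (Bs ≠ [] ∨ u ≠ []) ∧ pr φ (bw Bs) * pr φ u = pr φ v) := by
        refine ⟨B :: Bs.drop j, rfl, hGm, ?_⟩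
        have e2 : pr φ (bw (B :: Bs.drop j)) = pr φ (bw Bs) * φ a := by
          rw [bw_cons, pr_append, hBdef]
          show pr φ (bw (Bs.drop j)) * pr φ (gw φ (pr φ (bw (Bs.take j)) * φ a)) = _
          rw [(gw_spec H.hs _).1, ← mul_assoc, ← pr_append, ← bw_append, hTL]
        funext w
        apply propext
        constructor
        · rintro ⟨u, v, h1, h2, _, h3⟩
          cases u with
          | nil => simp at h1
          | cons b u =>
            simp only [List.map_cons, List.cons_append, List.cons.injEq, Option.some.injEq] at h1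
            obtain ⟨rfl, h1⟩ := h1
            refine ⟨u, v, h1, h2, Or.inl (by simp), ?_⟩
            rw [e2, ← h3, pr_cons, mul_assoc]
        · rintro ⟨u, v, h1, h2, _, h3⟩
          refine ⟨a :: u, v, by simp [h1], h2, Or.inr (by simp), ?_⟩
          rw [← h3, e2, pr_cons, mul_assoc]
      have e4 : r.drop j ++ (enc D Dp Bs).drop (k + 1) = enc D Dp (Bs.drop j) := by
        rw [← enc_drop]
        conv_rhs => rw [← List.take_append_drop (k + 1) (enc D Dp Bs)]
        rw [List.drop_append, ← hr]
        have : j - r.length = 0 := by omega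
        rw [this, List.drop_zero]
      have e5 : ndd D.top (r.drop j) = ND D Dp (Bs.drop j) := by
        rw [hr, List.drop_take, ndd_take _ _ _ (by omega), enc_drop, ndd_enc]
      have e6 : (Sym.st1 :: Sym.blk (gw φ (pr φ (bwS (r.take j)) * φ a))
          (nxt D Dp (ndd D.top (r.drop j)) (gw φ (pr φ (bwS (r.take j)) * φ a))) :: r.drop j) ++
          (enc D Dp Bs).drop (k + 1) = Sym.st1 :: enc D Dp (B :: Bs.drop j) := by
        rw [hP j hjk, e5]
        simp only [List.cons_append, e4]
        rfl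
      refine ⟨(Sym.st1 :: Sym.blk (gw φ (pr φ (bwS (r.take j)) * φ a))
          (nxt D Dp (ndd D.top (r.drop j)) (gw φ (pr φ (bwS (r.take j)) * φ a))) :: r.drop j),
          ?_, ?_⟩
      · apply f_some (s' := (enc D Dp Bs).drop (k + 1)) rfl
        rw [e6]
        exact hI.gd
      · left
        show I1 D ρ Dp ((Sym.st1 :: Sym.blk (gw φ (pr φ (bwS (r.take j)) * φ a))
          (nxt D Dp (ndd D.top (r.drop j)) (gw φ (pr φ (bwS (r.take j)) * φ a))) :: r.drop j) ++
          (enc D Dp Bs).drop (k + 1)) _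
        rw [e6]
        exact hI

/-- The language of the system. -/
theorem sys_language [Finite A] (H : Hyp D ρ Dp N g c R) (hρ : 1 ≤ ρ) (N₁ : ℕ)
    (hN₁ : ∀ (Top Low : List (Blk A)) (a : A), Good φ ρ (Top ++ Low) →
      nrm φ (pr φ (bw Top) * φ a) ≤ ρ → Top.length ≤ N₁) :
    ∃ P : WinSys (Option A), {w | P.Acc P.init w} = WPM φ := by
  refine ⟨sys D ρ Dp N g c R H.hs (N + N₁ + 1 + 2), ?_⟩
  have key := acc_iff (sys D ρ Dp N g c R H.hs (N + N₁ + 1 + 2))
    (fun s L => I1 D ρ Dp s L ∨ I2 D ρ Dp g c R s L) (mu φ g c) (by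
      rintro s L (h | h)
      · exact step1 H hρ N₁ hN₁ (N + N₁ + 1) (by omega) s L h
      · rcases step2 H (N + N₁ + 1) (by omega) s L h with ⟨r, h1, h2, h3⟩ | ⟨h1, h2, h3⟩
        · exact Or.inl ⟨r, h1, Or.inr h2, h3⟩
        · refine Or.inr ⟨h1, h2, fun t => ?_⟩
          rcases h3 t with h4 | ⟨r, h4, h5⟩
          · exact Or.inl h4
          · exact Or.inr ⟨r, h4, Or.inr h5⟩)
  ext w
  have h0 : I1 D ρ Dp [Sym.st1] (fun w => ∃ u v : List A,
      w = u.map some ++ none :: v.reverse.map some ∧ v ≠ [] ∧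
      (([] : List (Blk A)) ≠ [] ∨ u ≠ []) ∧ pr φ (bw ([] : List (Blk A))) * pr φ u = pr φ v) :=
    ⟨[], rfl, trivial, rfl⟩
  have h1 := key w [Sym.st1] _ (Or.inl h0)
  have h2 : w ∈ {w | (sys D ρ Dp N g c R H.hs (N + N₁ + 1 + 2)).Acc
      (sys D ρ Dp N g c R H.hs (N + N₁ + 1 + 2)).init w} ↔
      (sys D ρ Dp N g c R H.hs (N + N₁ + 1 + 2)).Acc [Sym.st1] w := Iff.rfl
  rw [h2, h1]
  constructor
  · rintro ⟨u, v, h3, h4, h5, h6⟩
    refine ⟨u, v, ?_, h4, ?_, h3⟩
    · rcases h5 with h5 | h5
      · exact absurd rfl h5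
      · exact h5
    · rw [← h6]
      simp [bw]
  · rintro ⟨u, v, h3, h4, h5, h6⟩
    refine ⟨u, v, h6, h4, Or.inr h3, ?_⟩
    rw [← h5]
    simp [bw]

end

end Pool.Agent.W399.WP
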