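import Pool.Agent.W399.WP.Mach

/-!
# Correctness of the second phase
-/

set_option autoImplicit false

namespace Pool.Agent.W399.WP

open Classical

section
variable {M : Type} [CancelMonoid M] {A : Type} {φ : A → M}

/-- The facts used about the parameters. -/
structure Hyp (D : CFData φ) (ρ Dp N g c R : ℕ) : Prop where
  hs : ∀ m : M, ∃ l : List A, pr φ l = m
  nod : ∀ (Low : List (Blk A)) (n : List A × D.X), n ∈ ND D Dp Low →
    ∃ t : List A, NodeAt D n (bw Low) t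
  chn : ∀ (Top Mid Low : List (Blk A)) (v : List A), Good φ ρ (Top ++ Mid ++ Low) →
    pr φ v = pr φ (bw (Top ++ Mid ++ Low)) →
    ∃ (n₁ n₂ : List A × D.X) (v₁ v₂ v₃ w : List A), v = v₁ ++ v₂ ++ v₃ ∧
      n₁ ∈ ND D Dp Low ∧ n₂ ∈ ND D Dp (Mid ++ Low) ∧ NodeAt D n₁ (bw Low) v₁ ∧
      n₁.1 ++ bw Mid = w ++ n₂.1 ∧ Step D.C n₁.2 w v₂ n₂.2 ∧ (n₂.1 ++ bw Top, v₃) ∈ D.C n₂.2
  vrc : ∀ (Top Mid Low : List (Blk A)), Good φ ρ (Top ++ Mid ++ Low) →
    VN D Dp (Top ++ Mid) Low = {n | n ∈ ND D Dp Low ∧ ∃ n₂ ∈ VN D Dp Top (Mid ++ Low),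
      ∃ w v : List A, n.1 ++ bw Mid = w ++ n₂.1 ∧ Step D.C n.2 w v n₂.2}
  lbl1 : ∀ (n n' : List A × D.X) (Wl Wm t t' : List A) (g : M), NodeAt D n Wl t →
    NodeAt D n' (Wl ++ Wm) t' → Lab D n Wm n' g → pr φ t * g = pr φ t'
  lbl2 : ∀ (n n' : List A × D.X) (Wl Wm U V V' t t' : List A) (g : M), NodeAt D n Wl t →
    NodeAt D n' (Wl ++ Wm) t' → (n.1 ++ Wm ++ U, V) ∈ D.C n.2 → (n'.1 ++ U, V') ∈ D.C n'.2 →
    pr φ t * g = pr φ t' → Lab D n Wm n' g
  lblR : ∀ (n n' : List A × D.X) (Wl Wm t t' : List A) (g : M),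
    n.1.length ≤ Dp → n'.1.length ≤ Dp → Wm.length ≤ N * ρ → NodeAt D n Wl t →
    NodeAt D n' (Wl ++ Wm) t' → Lab D n Wm n' g → nrm φ g ≤ R
  k0R : ∀ (n : List A × D.X) (V : List A), n.1.length ≤ Dp → (n.1, V) ∈ D.C n.2 →
    nrm φ (pr φ V) ≤ R
  cut : ∀ (Top Mid Low : List (Blk A)) (n' : List A × D.X) (t t' : List A),
    Good φ ρ (Top ++ Mid ++ Low) → N ≤ Mid.length → n' ∈ VN D Dp Top (Mid ++ Low) →
    NodeAt D n' (bw (Mid ++ Low)) t' → pr φ t = pr φ t' →
    ∃ (n : List A × D.X) (t₁ t₂ : List A), t = t₁ ++ t₂ ∧ n ∈ VN D Dp (Top ++ Mid) Low ∧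
      NodeAt D n (bw Low) t₁
  ins : ∀ (K : Set M) (r x : M) (s s₂ s₀ : List A), (∀ k ∈ K, nrm φ k ≤ R) → Geo φ s →
      s = s₂ ++ s₀ → s₀.length = c → 2 * g ≤ s₂.length → x * pr φ s = r →
      (Cut φ K r x → Cut φ (newK D c g K s) (x * pr φ s₂) x) ∧
      PCut φ K r (newK D c g K s) (x * pr φ s₂) x
  hE : ∀ e ∈ D.E, nrm φ e ≤ g
  hg : 1 ≤ g
  hR : 2 * g ≤ R
  hc : R ≤ c
  hc1 : 1 ≤ c
  hN : 1 ≤ N

theorem bw_append (X Y : List (Blk A)) : bw (X ++ Y) = bw Y ++ bw X := by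
  simp [bw]

theorem Good.right {ρ : ℕ} {X Y : List (Blk A)} (h : Good φ ρ (X ++ Y)) : Good φ ρ Y := by
  induction X with
  | nil => exact h
  | cons B X ih => exact ih h.1

theorem bw_length_le {ρ : ℕ} {Y : List (Blk A)} (h : Good φ ρ Y) :
    (bw Y).length ≤ Y.length * ρ := by
  induction Y with
  | nil => simp [bw]
  | cons B Y ih =>
    have h1 := ih h.1
    have h2 := h.2.2.1
    have e : bw (B :: Y) = bw Y ++ B.1 := by simp [bw]
    rw [e, List.length_append, List.length_cons, Nat.succ_mul]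
    omega

theorem good_take {ρ : ℕ} {Y : List (Blk A)} (h : Good φ ρ Y) (n : ℕ) :
    (bw (Y.take n)).length ≤ n * ρ := by
  induction Y generalizing n with
  | nil => simp [bw]
  | cons B Y ih =>
    cases n with
    | zero => simp [bw]
    | succ n =>
      have h1 := ih h.1 n
      have h2 := h.2.2.1
      have e : bw ((B :: Y).take (n + 1)) = bw (Y.take n) ++ B.1 := by simp [bw]
      rw [e, List.length_append, Nat.succ_mul]
      omega

variable {D : CFData φ} {ρ Dp N g c R : ℕ}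

theorem ND_len {Low : List (Blk A)} {n : List A × D.X} (h : n ∈ ND D Dp Low) :
    n.1.length ≤ Dp := by
  cases Low with
  | nil =>
    have : n = ([], D.top) := h
    simp [this]
  | cons B Bs => exact h.1

/-- The labels of the top layer. -/
def hlab {M A X : Type} : List (Sym M A X) → Set M
  | L :: _ => lab L
  | [] => ∅

variable (D ρ Dp g c R) in
/-- The invariant for the layers: `r` is the reference of the top layer, `x` the current value. -/
def Stk (x : M) : List (Sym M A D.X) → M → Prop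
  | .lay1 V K₁ :: Ls, r => ∃ Top Low : List (Blk A), Ls = enc D Dp Low ∧ V = VN D Dp Top Low ∧
      Good φ ρ (Top ++ Low) ∧
      (∀ p ∈ K₁, p.1 ∈ VN D Dp Top Low ∧ nrm φ p.2 ≤ R ∧
        ∃ t, NodeAt D p.1 (bw Low) t ∧ pr φ t * p.2 = r) ∧
      Cut φ (lab (Sym.lay1 V K₁)) r x
  | .lay2 σ₀ K' :: L, r => Stk x L (r * σ₀) ∧ (∀ k' ∈ K', nrm φ k' ≤ 2 * g ∧ ∃ p, p * k' = r) ∧
      Cut φ K' r x ∧ PCut φ (hlab L) (r * σ₀) K' r x ∧ nrm φ σ₀ ≤ c
  | _, _ => False

theorem Stk.cut {x r : M} {L : List (Sym M A D.X)} (h : Stk D ρ Dp g c R x L r) :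
    Cut φ (hlab L) r x := by
  cases L with
  | nil => exact h.elim
  | cons y L =>
    cases y with
    | lay1 V K => obtain ⟨_, _, _, _, _, _, h⟩ := h; exact h
    | lay2 σ K => exact h.2.2.1
    | st1 => exact h.elim
    | st2 => exact h.elim
    | blk => exact h.elim

theorem Stk.lb (H : Hyp D ρ Dp N g c R) {x r : M} {L : List (Sym M A D.X)}
    (h : Stk D ρ Dp g c R x L r) : ∀ k ∈ hlab L, nrm φ k ≤ R ∧ ∃ p, p * k = r := by
  cases L with
  | nil => exact h.elim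
  | cons y L =>
    cases y with
    | lay1 V K =>
      obtain ⟨_, _, _, _, _, h, _⟩ := h
      rintro k ⟨q, hq⟩
      obtain ⟨_, h1, t, _, h2⟩ := h _ hq
      exact ⟨h1, _, h2⟩
    | lay2 σ K =>
      intro k hk
      have := h.2.1 k hk
      exact ⟨this.1.trans H.hR, this.2⟩
    | st1 => exact h.elim
    | st2 => exact h.elim
    | blk => exact h.elim

theorem Gd_enc {Low : List (Blk A)} (hG : Good φ ρ Low) :
    ∀ s ∈ enc D Dp Low, Gd D ρ Dp g c R s := by
  induction Low with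
  | nil => simp [enc]
  | cons B Bs ih =>
    intro s hs
    simp only [enc, List.mem_cons] at hs
    rcases hs with rfl | hs
    · exact ⟨hG.2.2.1, fun q hq => ND_len hq⟩
    · exact ih hG.1 s hs

theorem Stk.gd (H : Hyp D ρ Dp N g c R) {x : M} {L : List (Sym M A D.X)} :
    ∀ {r : M}, Stk D ρ Dp g c R x L r → ∀ s ∈ L, Gd D ρ Dp g c R s := by
  induction L with
  | nil => intro r h; exact h.elim
  | cons y L ih =>
    intro r h
    cases y with
    | lay1 V K =>
      obtain ⟨Top, Low, rfl, rfl, hG, h, _⟩ := h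
      intro s hs
      rw [List.mem_cons] at hs
      rcases hs with rfl | hs
      · exact ⟨fun q hq => ND_len hq.1, fun p hp => ⟨ND_len (h p hp).1.1, (h p hp).2.1⟩⟩
      · exact Gd_enc hG.right s hs
    | lay2 σ K =>
      intro s hs
      rw [List.mem_cons] at hs
      rcases hs with rfl | hs
      · exact ⟨h.2.2.2.2, fun k hk => (h.2.1 k hk).1.trans H.hR⟩
      · exact ih h.1 s hs
    | st1 => exact h.elim
    | st2 => exact h.elim
    | blk => exact h.elim

theorem Cut.pred {K : Set M} {r x x' : M} {a : A} (h : Cut φ K r x) (hx : ∀ k ∈ K, x * k ≠ r)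
    (hx' : x' * φ a = x) : Cut φ K r x' := by
  intro t ht
  obtain ⟨t₁, t₂, h1, k, hk, h2⟩ := h (t ++ [a]) (by simp [ht, hx'])
  rcases List.eq_nil_or_concat t₂ with rfl | ⟨t₃, b, rfl⟩
  · exfalso
    rw [List.append_nil] at h1
    apply hx k hk
    rw [← h2, ← h1]
    simp [ht, hx']
  · rw [List.concat_eq_append, ← List.append_assoc] at h1
    have := List.append_inj_left' h1 rfl
    exact ⟨t₁, t₃, this, k, hk, h2⟩

theorem PCut.pred {K K' : Set M} {r r' x x' : M} {a : A} (h : PCut φ K r K' r' x)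
    (hx : ∀ k ∈ K', x * k ≠ r') (hx' : x' * φ a = x) : PCut φ K r K' r' x' := by
  intro p k β hk h1 h2
  obtain ⟨β₁, β₂, h3, k', hk', h4⟩ := h p k (β ++ [a]) hk h1 (by simp [← mul_assoc, h2, hx'])
  rcases List.eq_nil_or_concat β₂ with rfl | ⟨t₃, b, rfl⟩
  · exfalso
    rw [List.append_nil] at h3
    apply hx k' hk'
    rw [← h4, ← h3]
    simp [← mul_assoc, h2, hx']
  · rw [List.concat_eq_append, ← List.append_assoc] at h3
    have := List.append_inj_left' h3 rfl
    exact ⟨β₁, t₃, this, k', hk', h4⟩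

theorem Stk.pred {x x' : M} {a : A} {L : List (Sym M A D.X)} :
    ∀ {r : M}, Stk D ρ Dp g c R x L r → (∀ k ∈ hlab L, x * k ≠ r) → x' * φ a = x →
      Stk D ρ Dp g c R x' L r := by
  induction L with
  | nil => intro r h; exact h.elim
  | cons y L ih =>
    intro r h hx hx'
    cases y with
    | lay1 V K =>
      obtain ⟨Top, Low, h1, h2, h3, h4, h5⟩ := h
      exact ⟨Top, Low, h1, h2, h3, h4, h5.pred hx hx'⟩
    | lay2 σ K =>
      obtain ⟨h1, h2, h3, h4, h5⟩ := h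
      refine ⟨ih h1 ?_ hx', h2, h3.pred hx hx', h4.pred hx hx', h5⟩
      intro k hk hk'
      obtain ⟨β₁, β₂, h6, k', hk', h7⟩ := h4 x k [] hk hk' (by simp)
      have h8 : β₁ = [] := by
        have := congrArg List.length h6
        simp at this
        exact List.length_eq_zero_iff.1 (by omega)
      subst h8
      apply hx k' hk'
      simpa using h7
    | st1 => exact h.elim
    | st2 => exact h.elim
    | blk => exact h.elim

/-- A node at the bottom has value 1. -/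
theorem bot_node {n : List A × D.X} (hn : n = ([], D.top)) {t : List A}
    (h : NodeAt D n (bw ([] : List (Blk A))) t) : pr φ t = 1 := by
  subst hn
  obtain ⟨a, h1, h2⟩ := h
  have ha : a = [] := by simpa [bw] using h1
  subst ha
  have h3 := h2 [] [] ((D.hC _ _).2 rfl)
  rw [D.hC] at h3
  simpa using h3.symm

theorem Stk.bot (H : Hyp D ρ Dp N g c R) {x r : M} {V : Set (List A × D.X)}
    {K : Set ((List A × D.X) × M)} (h : Stk D ρ Dp g c R x [.lay1 V K] r) :
    (∀ k ∈ hlab [(Sym.lay1 V K : Sym M A D.X)], k = r) ∧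
    r ∈ hlab [(Sym.lay1 V K : Sym M A D.X)] ∧ ∀ x', Stk D ρ Dp g c R x' [.lay1 V K] r := by
  obtain ⟨Top, Low, h1, h2, h3, h4, h5⟩ := h
  have hL : Low = [] := by
    cases Low with
    | nil => rfl
    | cons B Bs => simp [enc] at h1
  subst hL
  have e1 : ∀ k ∈ hlab [(Sym.lay1 V K : Sym M A D.X)], k = r := by
    rintro k ⟨q, hq⟩
    obtain ⟨hv, _, t, ht, h6⟩ := h4 _ hq
    have := bot_node hv.1 ht
    rw [this, one_mul] at h6
    exact h6
  have e2 : r ∈ hlab [(Sym.lay1 V K : Sym M A D.X)] := by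
    obtain ⟨t, ht⟩ := H.hs x
    obtain ⟨t₁, t₂, _, k, hk, _⟩ := h5 t ht
    have := e1 k hk
    rw [← this]
    exact hk
  refine ⟨e1, e2, fun x' => ⟨Top, [], h1, h2, h3, h4, ?_⟩⟩
  intro t ht
  exact ⟨[], t, rfl, r, e2, by simp⟩

/-- Going down. -/
theorem Stk.down (H : Hyp D ρ Dp N g c R) {x r σ : M} {V : Set (List A × D.X)}
    {K : Set ((List A × D.X) × M)} {Ls : List (Sym M A D.X)}
    (h : Stk D ρ Dp g c R x (.lay1 V K :: Ls) r) (hx : x * σ = r) {q : List A × D.X}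
    (hq : (q, σ) ∈ K) :
    Stk D ρ Dp g c R x (.lay1 (nV D (ndd D.top (Ls.drop N)) V (bwS (Ls.take N)))
      (nK D (ndd D.top (Ls.drop N)) V K σ (bwS (Ls.take N))) :: Ls.drop N) x := by
  obtain ⟨Top, Low, rfl, rfl, hG, h4, h5⟩ := h
  rw [enc_drop, bwS_enc_take, ndd_enc]
  have hLow : Low.take N ++ Low.drop N = Low := List.take_append_drop _ _
  have hG' : Good φ ρ (Top ++ Low.take N ++ Low.drop N) := by
    rw [List.append_assoc, hLow]; exact hG
  have hb : bw (Low.drop N) ++ bw (Low.take N) = bw Low := by rw [← bw_append, hLow]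
  have hV : nV D (ND D Dp (Low.drop N)) (VN D Dp Top Low) (bw (Low.take N)) =
      VN D Dp (Top ++ Low.take N) (Low.drop N) := by
    rw [H.vrc _ _ _ hG', hLow]
    rfl
  have key : ∀ q', (q', σ) ∈ K → q' ∈ VN D Dp Top Low ∧
      ∃ t', NodeAt D q' (bw Low) t' ∧ pr φ t' = x := by
    intro q' hq'
    obtain ⟨h6, _, t, h7, h8⟩ := h4 _ hq'
    exact ⟨h6, t, h7, mul_right_cancel (h8.trans hx.symm)⟩
  refine ⟨Top ++ Low.take N, Low.drop N, rfl, hV, hG', ?_, ?_⟩
  · rintro ⟨n, k⟩ ⟨h6, q', hq', h7⟩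
    obtain ⟨h8, t', h9, h10⟩ := key q' hq'
    obtain ⟨t, ht⟩ := H.nod _ _ h6.1
    rw [← hb] at h9
    refine ⟨hV ▸ h6, ?_, t, ht, ?_⟩
    · exact H.lblR n q' _ _ t t' k (ND_len h6.1) (ND_len h8.1) (good_take hG.right N) ht h9 h7
    · exact (H.lbl1 n q' _ _ t t' k ht h9 h7).trans h10
  · intro t ht
    obtain ⟨h8, t', h9, h10⟩ := key q hq
    have hcut : ∃ (n : List A × D.X) (t₁ t₂ : List A), t = t₁ ++ t₂ ∧
        n ∈ VN D Dp (Top ++ Low.take N) (Low.drop N) ∧ NodeAt D n (bw (Low.drop N)) t₁ := by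
      by_cases hN : N ≤ Low.length
      · apply H.cut Top (Low.take N) (Low.drop N) q t t' hG' (by simp [hN])
        · rw [hLow]; exact h8
        · rw [hLow]; exact h9
        · rw [ht, h10]
      · have e1 : Low.drop N = [] := List.drop_eq_nil_of_le (by omega)
        have e2 : Low.take N = Low := List.take_of_length_le (by omega)
        rw [e1, e2]
        refine ⟨([], D.top), [], t, rfl, ⟨rfl, bw (Top ++ Low), ?_⟩, ⟨[], rfl, Step.refl _⟩⟩
        rw [D.hC]
        rfl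
    obtain ⟨n, t₁, t₂, h11, h12, h13⟩ := hcut
    refine ⟨t₁, t₂, h11, pr φ t₂, ⟨n, ?_, q, hq, ?_⟩, ?_⟩
    · show n ∈ nV D _ _ _
      rw [hV]
      exact h12
    · obtain ⟨V₁, hV₁⟩ := h12.2
      obtain ⟨V₂, hV₂⟩ := h8.2
      rw [bw_append, ← List.append_assoc] at hV₁
      refine H.lbl2 n q (bw (Low.drop N)) (bw (Low.take N)) (bw Top) V₁ V₂ t₁ t' _ h13
        (by rw [hb]; exact h9) hV₁ hV₂ ?_
      rw [h10, ← ht, h11, pr_append]
    · rw [← pr_append, ← h11, ht]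

/-- Insertion. -/
theorem Stk.insn (H : Hyp D ρ Dp N g c R) {x r σ : M} {L : List (Sym M A D.X)}
    (h : Stk D ρ Dp g c R x L r) (hx : x * σ = r) (hσ : nrm φ σ = c + 2 * g + 1) :
    Stk D ρ Dp g c R x (.lay2 (pr φ ((gw φ σ).drop (2 * g + 1)))
      (newK D c g (hlab L) (gw φ σ)) :: L) (x * pr φ ((gw φ σ).take (2 * g + 1))) := by
  obtain ⟨e1, e2⟩ := gw_spec H.hs σ
  have hgeo := gw_geo H.hs σ
  have e3 : x * pr φ ((gw φ σ).take (2 * g + 1)) * pr φ ((gw φ σ).drop (2 * g + 1)) = r := by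
    rw [mul_assoc, ← pr_append, List.take_append_drop, e1, hx]
  have hlen : ((gw φ σ).drop (2 * g + 1)).length = c := by
    rw [List.length_drop]; omega
  have hI := H.ins (hlab L) r x (gw φ σ) ((gw φ σ).take (2 * g + 1))
    ((gw φ σ).drop (2 * g + 1)) (fun k hk => (h.lb H k hk).1) hgeo
    (List.take_append_drop _ _).symm hlen
    (by rw [List.length_take]; omega) (by rw [e1, hx])
  refine ⟨?_, ?_, hI.1 h.cut, ?_, ?_⟩
  · rw [e3]; exact h
  · rintro k' ⟨e, he, s₂, h', s₀, hs, hs₀, hh, rfl, k, hk, m, hm⟩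
    constructor
    · have := nrm_mul_le φ H.hs e (pr φ h')
      have h2 := nrm_le φ h'
      have h3 := H.hE e he
      omega
    · obtain ⟨p, hp⟩ := (h.lb H k hk).2
      refine ⟨p * m, ?_⟩
      have hs₀' : s₀ = (gw φ σ).drop (2 * g + 1) := by
        have h5 : (gw φ σ) = (gw φ σ).take (2 * g + 1) ++ (gw φ σ).drop (2 * g + 1) :=
          (List.take_append_drop _ _).symm
        have h6 : s₂ ++ h' ++ s₀ = (gw φ σ).take (2 * g + 1) ++ (gw φ σ).drop (2 * g + 1) := by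
          rw [← hs]; exact h5
        exact List.append_inj_right' h6 (by rw [hs₀, hlen])
      apply mul_right_cancel (b := pr φ s₀)
      rw [hs₀'] at hm ⊢
      rw [e3, ← hp, hm]
      simp only [mul_assoc]
  · rw [e3]; exact hI.2
  · have := nrm_le φ ((gw φ σ).drop (2 * g + 1))
    omega

end

end Pool.Agent.W399.WP
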