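import Pool.Agent.W399.WP.Ph2

/-!
# The second phase: the moves
-/

set_option autoImplicit false

namespace Pool.Agent.W399.WP

open Classical

section
variable {M : Type} [CancelMonoid M] {A : Type} {φ : A → M}
variable {D : CFData φ} {ρ Dp N g c R : ℕ}

theorem read2 (H : Hyp D ρ Dp N g c R) {x r σ : M} {Ls : List (Sym M A D.X)}
    (h : Stk D ρ Dp g c R x Ls r) (hx : x * σ = r)
    (hc : (∀ k ∈ hlab Ls, x * k ≠ r) ∨ ∃ V K, Ls = [Sym.lay1 V K]) (a : A) :
    (∃ x', x' * φ a = x ∧ Stk D ρ Dp g c R x' Ls r ∧
      ∃ k ∈ hlab Ls, ∃ m : M, k = m * (φ a * σ)) ∨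
    ((¬ ∃ x', x' * φ a = x) ∧ ¬ ∃ k ∈ hlab Ls, ∃ m : M, k = m * (φ a * σ)) := by
  by_cases hx' : ∃ x', x' * φ a = x
  · left
    obtain ⟨x', hx'⟩ := hx'
    refine ⟨x', hx', ?_⟩
    rcases hc with hc | ⟨V, K, rfl⟩
    · refine ⟨h.pred hc hx', ?_⟩
      obtain ⟨t, ht⟩ := H.hs x'
      obtain ⟨t₁, t₂, h1, k, hk, h2⟩ := h.cut (t ++ [a]) (by simp [ht, hx'])
      rcases List.eq_nil_or_concat t₂ with rfl | ⟨t₃, b, rfl⟩
      · exfalso
        rw [List.append_nil] at h1
        apply hc k hk
        rw [← h2, ← h1]
        simp [ht, hx']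
      · rw [List.concat_eq_append, ← List.append_assoc] at h1
        have h3 := List.append_inj_left' h1 rfl
        refine ⟨k, hk, pr φ t₃, ?_⟩
        apply mul_left_cancel (a := pr φ t₁)
        rw [h2, ← hx, ← hx', ← ht, h3, pr_append]
        simp only [mul_assoc]
    · obtain ⟨_, h2, h3⟩ := h.bot H
      refine ⟨h3 x', r, h2, x', ?_⟩
      rw [← mul_assoc, hx', hx]
  · right
    refine ⟨hx', ?_⟩
    rintro ⟨k, hk, m, hm⟩
    obtain ⟨p, hp⟩ := (h.lb H k hk).2
    apply hx'
    refine ⟨p * m, ?_⟩
    apply mul_right_cancel (b := σ)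
    rw [hx, ← hp, hm]
    simp only [mul_assoc]

variable (D ρ Dp g c R) in
/-- Configurations of the second phase. -/
def I2 (s : List (Sym M A D.X)) (L : List (Option A) → Prop) : Prop :=
  ∃ (σ : M) (f : Bool) (Ls : List (Sym M A D.X)) (x r : M), s = .st2 σ f :: Ls ∧
    Stk D ρ Dp g c R x Ls r ∧ x * σ = r ∧ nrm φ σ ≤ c + 2 * g + 1 ∧
    L = fun w => ∃ v : List A, w = v.reverse.map some ∧ pr φ v = x ∧ (f = true ∨ v ≠ [])

variable (φ g c) in
/-- The measure. -/
noncomputable def mu {X : Type} : List (Sym M A X) → ℕ
  | .st2 σ f :: s => (Sym.st2 σ f :: s).length + (if c + 2 * g + 1 ≤ nrm φ σ then 2 else 0)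
  | s => s.length

theorem e_some {w r s' : List (Sym M A D.X)} (h : ef D N g c w = some r)
    (h' : ∀ x ∈ r ++ s', Gd D ρ Dp g c R x) : eg D ρ Dp N g c R w = some r := by
  unfold eg
  rw [Option.filter_eq_some_iff]
  refine ⟨h, ?_⟩
  apply decide_eq_true
  intro x hx
  exact h' x (List.mem_append_left _ hx)

theorem f_some {t : Option A} {w r s' : List (Sym M A D.X)} (h : ff D ρ Dp t w = some r)
    (h' : ∀ x ∈ r ++ s', Gd D ρ Dp g c R x) : fg D ρ Dp g c R t w = some r := by
  unfold fg
  rw [Option.filter_eq_some_iff]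
  refine ⟨h, ?_⟩
  apply decide_eq_true
  intro x hx
  exact h' x (List.mem_append_left _ hx)

theorem e_none {w : List (Sym M A D.X)} (h : ef D N g c w = none) :
    eg D ρ Dp N g c R w = none := by
  unfold eg
  rw [h]
  rfl

theorem f_none {t : Option A} {w : List (Sym M A D.X)} (h : ff D ρ Dp t w = none) :
    fg D ρ Dp g c R t w = none := by
  unfold fg
  rw [h]
  rfl

theorem I2.gd (H : Hyp D ρ Dp N g c R) {s : List (Sym M A D.X)} {L : List (Option A) → Prop}
    (h : I2 D ρ Dp g c R s L) : ∀ x ∈ s, Gd D ρ Dp g c R x := by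
  obtain ⟨σ, f, Ls, x, r, rfl, h1, _, h2, _⟩ := h
  intro y hy
  rw [List.mem_cons] at hy
  rcases hy with rfl | hy
  · exact h2
  · exact h1.gd H y hy

theorem lang_nil (x : M) (f : Bool) :
    (∃ v : List A, ([] : List (Option A)) = v.reverse.map some ∧ pr φ v = x ∧
      (f = true ∨ v ≠ [])) ↔ (f = true ∧ x = 1) := by
  constructor
  · rintro ⟨v, h1, h2, h3⟩
    have : v = [] := by
      cases v with
      | nil => rfl
      | cons a v => simp at h1
    subst this
    simp only [ne_eq, not_true_eq_false, or_false] at h3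
    exact ⟨h3, by simpa using h2.symm⟩
  · rintro ⟨h1, h2⟩
    exact ⟨[], by simp, by simp [h2], Or.inl h1⟩

theorem lang_none (x : M) (f : Bool) (w : List (Option A)) :
    ¬ ∃ v : List A, (none :: w) = v.reverse.map some ∧ pr φ v = x ∧ (f = true ∨ v ≠ []) := by
  rintro ⟨v, h1, _⟩
  have : (none : Option A) ∈ v.reverse.map some := by rw [← h1]; simp
  simp at this

theorem lang_cons {x x' : M} (f : Bool) {a : A} (hx' : x' * φ a = x) (w : List (Option A)) :
    (∃ v : List A, (some a :: w) = v.reverse.map some ∧ pr φ v = x ∧ (f = true ∨ v ≠ [])) ↔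
    ∃ v : List A, w = v.reverse.map some ∧ pr φ v = x' ∧ (true = true ∨ v ≠ []) := by
  constructor
  · rintro ⟨v, h1, h2, _⟩
    rcases List.eq_nil_or_concat v with rfl | ⟨v', b, rfl⟩
    · simp at h1
    · rw [List.concat_eq_append] at h1 h2
      simp only [List.reverse_append, List.reverse_cons, List.reverse_nil, List.nil_append,
        List.singleton_append, List.map_cons, List.cons.injEq, Option.some.injEq] at h1
      obtain ⟨rfl, h1⟩ := h1
      refine ⟨v', h1, ?_, Or.inl rfl⟩
      apply mul_right_cancel (b := φ a)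
      rw [hx', ← h2]
      simp
  · rintro ⟨v, h1, h2, _⟩
    refine ⟨v ++ [a], by simp [h1], by simp [h2, hx'], Or.inr (by simp)⟩

theorem lang_no {x : M} (f : Bool) {a : A} (hx' : ¬ ∃ x', x' * φ a = x) (w : List (Option A)) :
    ¬ ∃ v : List A, (some a :: w) = v.reverse.map some ∧ pr φ v = x ∧ (f = true ∨ v ≠ []) := by
  rintro ⟨v, h1, h2, _⟩
  rcases List.eq_nil_or_concat v with rfl | ⟨v', b, rfl⟩
  · simp at h1
  · rw [List.concat_eq_append] at h1 h2
    simp only [List.reverse_append, List.reverse_cons, List.reverse_nil, List.nil_append,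
      List.singleton_append, List.map_cons, List.cons.injEq, Option.some.injEq] at h1
    obtain ⟨rfl, h1⟩ := h1
    exact hx' ⟨pr φ v', by rw [← h2]; simp⟩

variable (D ρ Dp N g c R) in
/-- The conclusion for one configuration. -/
def Good2 (I : List (Sym M A D.X) → (List (Option A) → Prop) → Prop)
    (Kw : ℕ) (s : List (Sym M A D.X)) (L : List (Option A) → Prop) : Prop :=
  (∃ r, eg D ρ Dp N g c R (s.take Kw) = some r ∧ I (r ++ s.drop Kw) L ∧
    mu φ g c (r ++ s.drop Kw) < mu φ g c s) ∨
      (eg D ρ Dp N g c R (s.take Kw) = none ∧ (s.take Kw ∈ ac D ↔ L []) ∧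
        ∀ t, (fg D ρ Dp g c R t (s.take Kw) = none ∧ ∀ w, ¬ L (t :: w)) ∨
          (∃ r, fg D ρ Dp g c R t (s.take Kw) = some r ∧ I (r ++ s.drop Kw) (fun w => L (t :: w))))

theorem step2_read (H : Hyp D ρ Dp N g c R) (k : ℕ) {σ x r : M} {f : Bool} {y : Sym M A D.X}
    {Ls : List (Sym M A D.X)} (hS : Stk D ρ Dp g c R x (y :: Ls) r) (hx : x * σ = r)
    (hσ : nrm φ σ < c + 2 * g + 1)
    (hc : (∀ k ∈ hlab (y :: Ls), x * k ≠ r) ∨ ∃ V K, y :: Ls = [Sym.lay1 V K]) (t : Option A) :
      (fg D ρ Dp g c R t ((Sym.st2 σ f :: y :: Ls).take (k + 2)) = none ∧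
        ∀ w, ¬ ∃ v : List A, (t :: w) = v.reverse.map some ∧ pr φ v = x ∧ (f = true ∨ v ≠ [])) ∨
      (∃ r', fg D ρ Dp g c R t ((Sym.st2 σ f :: y :: Ls).take (k + 2)) = some r' ∧
        I2 D ρ Dp g c R (r' ++ (Sym.st2 σ f :: y :: Ls).drop (k + 2))
          (fun w => ∃ v : List A, (t :: w) = v.reverse.map some ∧ pr φ v = x ∧
            (f = true ∨ v ≠ []))) := by
  cases t with
  | none =>
    left
    exact ⟨f_none rfl, lang_none x f⟩
  | some a =>
    rcases read2 H hS hx hc a with ⟨x', h1, h2, h3⟩ | ⟨h1, h2⟩
    · right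
      have hI : I2 D ρ Dp g c R (Sym.st2 (φ a * σ) true :: y :: Ls)
          (fun w => ∃ v : List A, (some a :: w) = v.reverse.map some ∧ pr φ v = x ∧
            (f = true ∨ v ≠ [])) := by
        refine ⟨φ a * σ, true, y :: Ls, x', r, rfl, h2, by rw [← mul_assoc, h1, hx], ?_, ?_⟩
        · have e1 := nrm_mul_le φ H.hs (φ a) σ
          have e2 := nrm_le φ [a]
          simp only [pr_cons, pr_nil, mul_one, List.length_cons, List.length_nil] at e2
          omega
        · funext w
          exact propext (lang_cons f h1 w)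
      have e3 : (Sym.st2 (φ a * σ) true :: y :: Ls.take k) ++ Ls.drop k =
          Sym.st2 (φ a * σ) true :: y :: Ls := by simp
      refine ⟨Sym.st2 (φ a * σ) true :: y :: Ls.take k, ?_, ?_⟩
      · apply f_some (s' := Ls.drop k)
        · show (if ∃ k ∈ lab y, ∃ m : M, k = m * (φ a * σ) then _ else _) = _
          exact if_pos h3
        · rw [e3]
          exact hI.gd H
      · show I2 D ρ Dp g c R ((Sym.st2 (φ a * σ) true :: y :: Ls.take k) ++ Ls.drop k) _
        rw [e3]
        exact hI
    · left
      refine ⟨f_none ?_, lang_no f h1⟩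
      show (if ∃ k ∈ lab y, ∃ m : M, k = m * (φ a * σ) then _ else _) = _
      exact if_neg h2

theorem mu_st2 (σ : M) (f : Bool) {X : Type} (s : List (Sym M A X)) :
    mu φ g c (Sym.st2 σ f :: s) = s.length + 1 + (if c + 2 * g + 1 ≤ nrm φ σ then 2 else 0) := by
  simp [mu]

theorem step2_ins (H : Hyp D ρ Dp N g c R) (k : ℕ) {σ x r : M} {f : Bool} {y : Sym M A D.X}
    {Ls : List (Sym M A D.X)} (hS : Stk D ρ Dp g c R x (y :: Ls) r) (hx : x * σ = r)
    (hσ : nrm φ σ = c + 2 * g + 1)
    (he : ef D N g c (Sym.st2 σ f :: y :: Ls.take k) = some (insn D g c σ f y (Ls.take k))) :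
    ∃ r', eg D ρ Dp N g c R ((Sym.st2 σ f :: y :: Ls).take (k + 2)) = some r' ∧
      I2 D ρ Dp g c R (r' ++ (Sym.st2 σ f :: y :: Ls).drop (k + 2))
        (fun w => ∃ v : List A, w = v.reverse.map some ∧ pr φ v = x ∧ (f = true ∨ v ≠ [])) ∧
      mu φ g c (r' ++ (Sym.st2 σ f :: y :: Ls).drop (k + 2)) <
        mu φ g c (Sym.st2 σ f :: y :: Ls) := by
  have hS' := hS.insn H hx hσ
  obtain ⟨e1, e2⟩ := gw_spec H.hs σ
  have e5 : nrm φ (pr φ ((gw φ σ).take (2 * g + 1))) ≤ 2 * g + 1 := by
    refine (nrm_le φ _).trans ?_
    rw [List.length_take]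
    omega
  have hI : I2 D ρ Dp g c R (insn D g c σ f y Ls)
      (fun w => ∃ v : List A, w = v.reverse.map some ∧ pr φ v = x ∧ (f = true ∨ v ≠ [])) :=
    ⟨_, f, _, x, _, rfl, hS', rfl, by omega, rfl⟩
  have e3 : insn D g c σ f y (Ls.take k) ++ Ls.drop k = insn D g c σ f y Ls := by
    simp [insn]
  refine ⟨insn D g c σ f y (Ls.take k), ?_, ?_, ?_⟩
  · apply e_some (s' := Ls.drop k)
    · exact he
    · rw [e3]
      exact hI.gd H
  · show I2 D ρ Dp g c R (insn D g c σ f y (Ls.take k) ++ Ls.drop k) _
    rw [e3]
    exact hI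
  · show mu φ g c (insn D g c σ f y (Ls.take k) ++ Ls.drop k) < _
    rw [e3]
    unfold insn
    rw [mu_st2, mu_st2, if_pos hσ.ge, if_neg (by have := H.hc1; omega)]
    simp

theorem step2 (H : Hyp D ρ Dp N g c R) (k : ℕ) (hk : N + 1 ≤ k)
    (s : List (Sym M A D.X)) (L : List (Option A) → Prop) (h : I2 D ρ Dp g c R s L) :
    Good2 D ρ Dp N g c R (I2 D ρ Dp g c R) (k + 2) s L := by
  obtain ⟨σ, f, Ls, x, r, rfl, hS, hx, hσ, rfl⟩ := h
  cases Ls with
  | nil => exact hS.elim
  | cons y Ls =>
    cases y with
    | st1 => exact hS.elim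
    | st2 => exact hS.elim
    | blk => exact hS.elim
    | lay2 σ₀ K =>
      by_cases h1 : σ ∈ K
      · left
        have e3 : (Sym.st2 (σ * σ₀) f :: Ls.take k) ++ Ls.drop k = Sym.st2 (σ * σ₀) f :: Ls := by
          simp
        have e4 : nrm φ (σ * σ₀) ≤ c + 2 * g := by
          have := nrm_mul_le φ H.hs σ σ₀
          have h2 := (hS.2.1 σ h1).1
          have h3 := hS.2.2.2.2
          omega
        have hI : I2 D ρ Dp g c R (Sym.st2 (σ * σ₀) f :: Ls)
            (fun w => ∃ v : List A, w = v.reverse.map some ∧ pr φ v = x ∧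
              (f = true ∨ v ≠ [])) :=
          ⟨_, f, Ls, x, r * σ₀, rfl, hS.1, by rw [← mul_assoc, hx], by omega, rfl⟩
        refine ⟨Sym.st2 (σ * σ₀) f :: Ls.take k, ?_, ?_, ?_⟩
        · apply e_some (s' := Ls.drop k)
          · show (if σ ∈ K then _ else _) = _
            exact if_pos h1
          · rw [e3]
            exact hI.gd H
        · show I2 D ρ Dp g c R ((Sym.st2 (σ * σ₀) f :: Ls.take k) ++ Ls.drop k) _
          rw [e3]
          exact hI
        · show mu φ g c ((Sym.st2 (σ * σ₀) f :: Ls.take k) ++ Ls.drop k) < _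
          rw [e3, mu_st2, mu_st2, if_neg (by omega)]
          simp only [List.length_cons]
          omega
      · by_cases h2 : c + 2 * g + 1 ≤ nrm φ σ
        · left
          apply step2_ins H k hS hx (by omega)
          show (if σ ∈ K then _ else _) = _
          rw [if_neg h1, if_pos h2]
        · right
          have hne : ∀ k ∈ hlab (Sym.lay2 σ₀ K :: Ls), x * k ≠ r := by
            intro k' hk' hk''
            apply h1
            have : k' = σ := mul_left_cancel (hk''.trans hx.symm)
            rw [← this]
            exact hk'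
          refine ⟨e_none ?_, ?_, ?_⟩
          · show (if σ ∈ K then _ else _) = _
            rw [if_neg h1, if_neg h2]
          · constructor
            · rintro ⟨σ', V, K', h3, _⟩
              have h4 : (Sym.st2 σ f :: Sym.lay2 σ₀ K :: Ls.take k) =
                  ([Sym.st2 σ' true, Sym.lay1 V K'] : List (Sym M A D.X)) := h3
              simp at h4
            · intro h3
              exfalso
              have h4 := ((lang_nil x f).1 h3).2
              obtain ⟨t₁, t₂, h5, k', hk', h6⟩ := hS.cut [] (by rw [h4]; rfl)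
              have h7 : t₁ = [] := by
                have := congrArg List.length h5
                simp at this
                exact List.length_eq_zero_iff.1 (by omega)
              subst h7
              apply hne k' hk'
              rw [h4]
              exact h6
          · exact step2_read H k hS hx (by omega) (Or.inl hne)
    | lay1 V K =>
      by_cases h1 : Ls ≠ [] ∧ ∃ q, (q, σ) ∈ K
      · left
        obtain ⟨q, hq⟩ := h1.2
        have hS' := hS.down H hx hq
        have e6 : (Ls.take k).take N = Ls.take N := by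
          rw [List.take_take]; congr 1; omega
        have e7 : ndd D.top ((Ls.take k).drop N) = ndd D.top (Ls.drop N) := by
          rw [List.drop_take]
          exact ndd_take _ _ _ (by omega)
        have e8 : (Ls.take k).drop N ++ Ls.drop k = Ls.drop N := by
          conv_rhs => rw [← List.take_append_drop k Ls]
          rw [List.drop_append]
          by_cases h5 : N ≤ Ls.length
          · have : N - (List.take k Ls).length = 0 := by rw [List.length_take]; omega
            rw [this, List.drop_zero]
          · have : Ls.drop k = [] := List.drop_eq_nil_of_le (by omega)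
            rw [this]
            simp
        have e3 : down D N σ f V K (Ls.take k) ++ Ls.drop k = down D N σ f V K Ls := by
          unfold down
          rw [e6, e7]
          simp only [List.cons_append, e8]
        have hI : I2 D ρ Dp g c R (down D N σ f V K Ls)
            (fun w => ∃ v : List A, w = v.reverse.map some ∧ pr φ v = x ∧
              (f = true ∨ v ≠ [])) := by
          refine ⟨1, f, _, x, x, rfl, hS', by simp, ?_, rfl⟩
          have := nrm_le φ ([] : List A)
          rw [pr_nil] at this
          simp only [List.length_nil] at this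
          omega
        have e9 : Ls.take k ≠ [] := by
          intro h5
          rw [List.take_eq_nil_iff] at h5
          rcases h5 with h5 | h5
          · omega
          · exact h1.1 h5
        refine ⟨down D N σ f V K (Ls.take k), ?_, ?_, ?_⟩
        · apply e_some (s' := Ls.drop k)
          · show (if (Ls.take k ≠ [] ∧ ∃ q, (q, σ) ∈ K) then _ else _) = _
            exact if_pos ⟨e9, h1.2⟩
          · rw [e3]
            exact hI.gd H
        · show I2 D ρ Dp g c R (down D N σ f V K (Ls.take k) ++ Ls.drop k) _
          rw [e3]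
          exact hI
        · show mu φ g c (down D N σ f V K (Ls.take k) ++ Ls.drop k) < _
          rw [e3]
          unfold down
          rw [mu_st2, mu_st2, if_neg (by
            have := nrm_le φ ([] : List A)
            rw [pr_nil] at this
            simp only [List.length_nil] at this
            omega)]
          simp only [List.length_cons, List.length_drop]
          have h5 : Ls.length ≠ 0 := fun h => h1.1 (List.length_eq_zero_iff.1 h)
          have h6 := H.hN
          omega
      · by_cases h2 : c + 2 * g + 1 ≤ nrm φ σ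
        · left
          apply step2_ins H k hS hx (by omega)
          have h1' : ¬ (Ls.take k ≠ [] ∧ ∃ q, (q, σ) ∈ K) := by
            rintro ⟨h3, h4⟩
            apply h1
            refine ⟨?_, h4⟩
            rintro rfl
            simp at h3
          show (if (Ls.take k ≠ [] ∧ ∃ q, (q, σ) ∈ K) then _ else _) = _
          rw [if_neg h1', if_pos h2]
        · right
          have h1' : ¬ (Ls.take k ≠ [] ∧ ∃ q, (q, σ) ∈ K) := by
            rintro ⟨h3, h4⟩
            apply h1
            refine ⟨?_, h4⟩
            rintro rfl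
            simp at h3
          have hcase : (∀ k ∈ hlab (Sym.lay1 V K :: Ls), x * k ≠ r) ∨
              ∃ V' K', Sym.lay1 V K :: Ls = [Sym.lay1 V' K'] := by
            by_cases h3 : ∃ q, (q, σ) ∈ K
            · right
              have : Ls = [] := by
                by_contra h4
                exact h1 ⟨h4, h3⟩
              exact ⟨V, K, by rw [this]⟩
            · left
              rintro k' ⟨q, hq⟩ hk''
              apply h3
              have : k' = σ := mul_left_cancel (hk''.trans hx.symm)
              rw [← this]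
              exact ⟨q, hq⟩
          refine ⟨e_none ?_, ?_, ?_⟩
          · show (if (Ls.take k ≠ [] ∧ ∃ q, (q, σ) ∈ K) then _ else _) = _
            rw [if_neg h1', if_neg h2]
          · show (Sym.st2 σ f :: Sym.lay1 V K :: Ls.take k) ∈ ac D ↔
              (∃ v : List A, ([] : List (Option A)) = v.reverse.map some ∧ pr φ v = x ∧
                (f = true ∨ v ≠ []))
            rw [lang_nil]
            constructor
            · rintro ⟨σ', V', K', h3, h4⟩
              simp only [List.cons.injEq, Sym.st2.injEq, Sym.lay1.injEq] at h3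
              obtain ⟨⟨rfl, rfl⟩, ⟨rfl, rfl⟩, h5⟩ := h3
              have h6 : Ls = [] := by
                rw [List.take_eq_nil_iff] at h5
                rcases h5 with h5 | h5
                · omega
                · exact h5
              subst h6
              refine ⟨rfl, ?_⟩
              obtain ⟨h7, _, _⟩ := hS.bot H
              have h8 := h7 σ h4
              apply mul_right_cancel (b := σ)
              rw [hx, one_mul, h8]
            · rintro ⟨rfl, rfl⟩
              obtain ⟨t₁, t₂, h5, k', hk', h6⟩ := hS.cut [] rfl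
              have h7 : t₁ = [] := by
                have := congrArg List.length h5
                simp at this
                exact List.length_eq_zero_iff.1 (by omega)
              subst h7
              rw [pr_nil, one_mul] at h6
              rw [one_mul] at hx
              subst h6
              subst hx
              obtain ⟨q, hq⟩ := hk'
              have h8 : Ls = [] := by
                by_contra h4
                exact h1 ⟨h4, q, hq⟩
              subst h8
              exact ⟨_, V, K, by simp, q, hq⟩
          · exact step2_read H k hS hx (by omega) hcase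

end

end Pool.Agent.W399.WP
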