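import Pool.Agent.W399.WP.Defs

/-!
# Statements of the parts

Every `S_*` below is a part of the project (see the plan in the subtasks table).
-/

set_option autoImplicit false

namespace Pool.Agent.W399.WP

/-! ### Independent parts -/

/-- (SIM) Window systems are deterministic pushdown automata. -/
def S_SIM : Prop := ∀ (T : Type) (P : WinSys T), IsDCF {w : List T | P.Acc P.init w}

/-- (RED) Reduction of semigroups to monoids. -/
def S_RED : Prop := ∀ (S : Type) (_ : Semigroup S) (_ : IsCancelMul S) (A : Type) (_ : Finite A)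
  (_ : Nonempty A) (φ : A → S),
  ∃ (M : Type) (_ : CancelMonoid M) (ψ : A → M), (∀ m : M, ∃ l : List A, pr ψ l = m) ∧
    WordProblem φ = WPM ψ

/-- (GRAM) Extraction of the data from a grammar. -/
def S_GRAM : Prop := ∀ (M : Type) (_ : CancelMonoid M) (A : Type) (_ : Finite A) (_ : Nonempty A)
  (φ : A → M), (WPM φ).IsContextFree → Nonempty (CFData φ)

/-! ### Phase 1 -/

section
variable {M : Type} [CancelMonoid M] {A : Type} (φ : A → M)

/-- A block: a geodesic word and a path with the same value. -/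
abbrev Blk (A : Type) := List A × List A

/-- The word of a list of blocks (the list is top first, the word is read from the bottom). -/
def bw (Bs : List (Blk A)) : List A := (Bs.reverse.map Prod.fst).flatten

/-- Good stacks of blocks (top first). -/
def Good (ρ : ℕ) : List (Blk A) → Prop
  | [] => True
  | B :: Bs => Good ρ Bs ∧ Geo φ B.1 ∧ B.1.length ≤ ρ ∧ pr φ B.1 = pr φ B.2 ∧ B.2 ≠ [] ∧
      ∀ (r : ℕ) (l : List A), 1 ≤ r → r ≤ Bs.length → l ≠ [] → l <+: B.2 →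
        ρ < nrm φ (pr φ (bw (Bs.take r)) * pr φ l)

end

/-- (KP) Pieces which cross a boundary between blocks are short below the boundary. `Dp` does not
depend on `ρ`. -/
def S_KP : Prop := ∀ (M : Type) (_ : CancelMonoid M) (A : Type) (_ : Finite A)
  (φ : A → M) (_ : ∀ m : M, ∃ l : List A, pr φ l = m) (D : CFData φ),
  ∃ Dp ρ₀ : ℕ, ∀ ρ : ℕ, ρ₀ ≤ ρ → ∀ (Top Low : List (Blk A)) (a b₁ b₂ c : List A),
    Good φ ρ (Top ++ Low) → bw Low = a ++ b₁ → bw Top = b₂ ++ c → b₁ ≠ [] → b₂ ≠ [] →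
    pr φ (b₁ ++ b₂) ∈ D.E → b₁.length ≤ Dp

/-- `Kp φ D ρ Dp`: the conclusion of (KP). -/
def Kp {M : Type} [CancelMonoid M] {A : Type} (φ : A → M) (D : CFData φ) (ρ Dp : ℕ) : Prop :=
  ∀ (Top Low : List (Blk A)) (a b₁ b₂ c : List A),
    Good φ ρ (Top ++ Low) → bw Low = a ++ b₁ → bw Top = b₂ ++ c → b₁ ≠ [] → b₂ ≠ [] →
    pr φ (b₁ ++ b₂) ∈ D.E → b₁.length ≤ Dp

/-- (CNT) Few blocks between references at bounded distance. -/
def S_CNT : Prop := ∀ (M : Type) (_ : CancelMonoid M) (A : Type) (_ : Finite A)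
  (φ : A → M) (_ : ∀ m : M, ∃ l : List A, pr φ l = m) (D : CFData φ) (ρ Dp : ℕ),
  1 ≤ ρ → Kp φ D ρ Dp → ∀ F : Set M, F.Finite →
  ∃ N : ℕ, ∀ Top Low : List (Blk A), Good φ ρ (Top ++ Low) → pr φ (bw Top) ∈ F → Top.length ≤ N

section
variable {M : Type} [CancelMonoid M] {A : Type} {φ : A → M} (D : CFData φ)

/-- The nodes at the top of a stack of blocks: pairs `(b, x)`; the node sits `b.length` letters
below the top. Only the words of the blocks matter. -/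
def ND (Dp : ℕ) : List (Blk A) → Set (List A × D.X)
  | [] => {([], D.top)}
  | B :: Bs => {n | n.1.length ≤ Dp ∧ ∃ n' ∈ ND Dp Bs, ∃ w v : List A,
      n'.1 ++ B.1 = w ++ n.1 ∧ Step D.C n'.2 w v n.2}

/-- The nodes which can be continued along the blocks `Top`. -/
def VN (Dp : ℕ) (Top Low : List (Blk A)) : Set (List A × D.X) :=
  {n | n ∈ ND D Dp Low ∧ ∃ V : List A, (n.1 ++ bw Top, V) ∈ D.C n.2}

/-- `NodeAt n W t`: the node `n` at the end of the word `W` has the value of `t`. -/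
def NodeAt (n : List A × D.X) (W t : List A) : Prop :=
  ∃ a : List A, W = a ++ n.1 ∧ Step D.C D.top a t n.2

/-- The label from the node `n` (before the word `W`) to the node `n'` (after it). -/
def Lab (n : List A × D.X) (W : List A) (n' : List A × D.X) (g : M) : Prop :=
  ∃ U V V' : List A, (n.1 ++ W ++ U, V) ∈ D.C n.2 ∧ (n'.1 ++ U, V') ∈ D.C n'.2 ∧
    pr φ V = g * pr φ V'

end

/-- (NOD) Nodes are genuine. -/
def S_NOD : Prop := ∀ (M : Type) (_ : CancelMonoid M) (A : Type) (φ : A → M) (D : CFData φ)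
  (Dp : ℕ) (Low : List (Blk A)) (n : List A × D.X), n ∈ ND D Dp Low →
  ∃ t : List A, NodeAt D n (bw Low) t

/-- (CHN) Every word for the value passes nodes at two given levels. -/
def S_CHN : Prop := ∀ (M : Type) (_ : CancelMonoid M) (A : Type)
  (φ : A → M) (D : CFData φ) (ρ Dp : ℕ), Kp φ D ρ Dp →
  ∀ (Top Mid Low : List (Blk A)) (v : List A), Good φ ρ (Top ++ Mid ++ Low) →
    pr φ v = pr φ (bw (Top ++ Mid ++ Low)) →
  ∃ (n₁ n₂ : List A × D.X) (v₁ v₂ v₃ w : List A), v = v₁ ++ v₂ ++ v₃ ∧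
    n₁ ∈ ND D Dp Low ∧ n₂ ∈ ND D Dp (Mid ++ Low) ∧ NodeAt D n₁ (bw Low) v₁ ∧
    n₁.1 ++ bw Mid = w ++ n₂.1 ∧ Step D.C n₁.2 w v₂ n₂.2 ∧ (n₂.1 ++ bw Top, v₃) ∈ D.C n₂.2

/-- (VRC) Recursion for the continuable nodes. -/
def S_VRC : Prop := ∀ (M : Type) (_ : CancelMonoid M) (A : Type)
  (φ : A → M) (D : CFData φ) (ρ Dp : ℕ), Kp φ D ρ Dp →
  ∀ (Top Mid Low : List (Blk A)), Good φ ρ (Top ++ Mid ++ Low) →
    VN D Dp (Top ++ Mid) Low = {n | n ∈ ND D Dp Low ∧ ∃ n₂ ∈ VN D Dp Top (Mid ++ Low),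
      ∃ w v : List A, n.1 ++ bw Mid = w ++ n₂.1 ∧ Step D.C n.2 w v n₂.2}

/-- (LBL) Labels: soundness, completeness and boundedness. -/
def S_LBL : Prop := ∀ (M : Type) (_ : CancelMonoid M) (A : Type) (_ : Finite A)
  (φ : A → M) (_ : ∀ m : M, ∃ l : List A, pr φ l = m) (D : CFData φ),
  (∀ (n n' : List A × D.X) (Wl Wm t t' : List A) (g : M), NodeAt D n Wl t →
    NodeAt D n' (Wl ++ Wm) t' → Lab D n Wm n' g → pr φ t * g = pr φ t') ∧
  (∀ (n n' : List A × D.X) (Wl Wm U V V' t t' : List A) (g : M), NodeAt D n Wl t →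
    NodeAt D n' (Wl ++ Wm) t' → (n.1 ++ Wm ++ U, V) ∈ D.C n.2 → (n'.1 ++ U, V') ∈ D.C n'.2 →
    pr φ t * g = pr φ t' → Lab D n Wm n' g) ∧
  (∀ R : ℕ, ∃ R' : ℕ, ∀ (n n' : List A × D.X) (Wl Wm t t' : List A) (g : M),
    n.1.length ≤ R → n'.1.length ≤ R → Wm.length ≤ R → NodeAt D n Wl t →
    NodeAt D n' (Wl ++ Wm) t' → Lab D n Wm n' g → nrm φ g ≤ R')

/-- (CUT) Every word for a node at the level `Mid ++ Low` passes a node at the level `Low`, if
`Mid` has at least `N` blocks. -/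
def S_CUT : Prop := ∀ (M : Type) (_ : CancelMonoid M) (A : Type) (_ : Finite A)
  (φ : A → M) (_ : ∀ m : M, ∃ l : List A, pr φ l = m) (D : CFData φ) (ρ Dp : ℕ),
  1 ≤ ρ → Kp φ D ρ Dp →
  ∃ N : ℕ, ∀ (Top Mid Low : List (Blk A)) (n' : List A × D.X) (t t' : List A),
    Good φ ρ (Top ++ Mid ++ Low) → N ≤ Mid.length → n' ∈ VN D Dp Top (Mid ++ Low) →
    NodeAt D n' (bw (Mid ++ Low)) t' → pr φ t = pr φ t' →
    ∃ (n : List A × D.X) (t₁ t₂ : List A), t = t₁ ++ t₂ ∧ n ∈ VN D Dp (Top ++ Mid) Low ∧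
      NodeAt D n (bw Low) t₁

/-! ### Phase 2 -/

section
variable {M : Type} [CancelMonoid M] {A : Type} (φ : A → M)

/-- Every word for `x` passes the layer `{r k⁻¹ : k ∈ K}`. -/
def Cut (K : Set M) (r x : M) : Prop :=
  ∀ t : List A, pr φ t = x → ∃ t₁ t₂ : List A, t = t₁ ++ t₂ ∧ ∃ k ∈ K, pr φ t₁ * k = r

/-- Every path from the layer `(K, r)` to `x` passes the layer `(K', r')`. -/
def PCut (K : Set M) (r : M) (K' : Set M) (r' x : M) : Prop :=
  ∀ (p k : M) (β : List A), k ∈ K → p * k = r → p * pr φ β = x →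
    ∃ β₁ β₂ : List A, β = β₁ ++ β₂ ∧ ∃ k' ∈ K', p * pr φ β₁ * k' = r'

/-- The labels of the new layer. -/
def newK {φ : A → M} (D : CFData φ) (c g : ℕ) (K : Set M) (s : List A) : Set M :=
  {k' | ∃ e ∈ D.E, ∃ s₂ h s₀ : List A, s = s₂ ++ h ++ s₀ ∧ s₀.length = c ∧ h.length ≤ g ∧
    k' = e * pr φ h ∧ ∃ k ∈ K, ∃ m : M, k = m * (k' * pr φ s₀)}

end

/-- (INS) Insertion of a new layer: `s` is a geodesic word for the co-label `x⁻¹ r`, `s = s₂ s₀`,
`s₀` has length `c`, and the new reference is `r' = x s₂`. -/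
def S_INS : Prop := ∀ (M : Type) (_ : CancelMonoid M) (A : Type) (_ : Finite A)
  (φ : A → M) (_ : ∀ m : M, ∃ l : List A, pr φ l = m) (D : CFData φ),
  ∃ g : ℕ, 1 ≤ g ∧ (∀ e ∈ D.E, nrm φ e ≤ g) ∧ ∀ R : ℕ, ∃ c₀ : ℕ, ∀ c : ℕ, c₀ ≤ c →
    ∀ (K : Set M) (r x : M) (s s₂ s₀ : List A), (∀ k ∈ K, nrm φ k ≤ R) → Geo φ s →
      s = s₂ ++ s₀ → s₀.length = c → 2 * g ≤ s₂.length → x * pr φ s = r →
      (Cut φ K r x → Cut φ (newK D c g K s) (x * pr φ s₂) x) ∧
      PCut φ K r (newK D c g K s) (x * pr φ s₂) x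

end Pool.Agent.W399.WP
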